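import Mathlib

namespace Pool.Agent.Lib.MP_51f8fd_al

open Finset MvPolynomial

variable {K : Type*} [Field K] [Fintype K]

theorem coeff_eq_zero_of_sum {ι : Type*} (s : Finset ι) (n : ι → ℕ) (hinj : Set.InjOn n s)
    (hn : ∀ i ∈ s, n i < Fintype.card K) (c : ι → K) (h : ∀ t : K, ∑ i ∈ s, c i * t ^ n i = 0) :
    ∀ i ∈ s, c i = 0 := by
  classical
  intro i hi
  let Ψ : Polynomial K := ∑ j ∈ s, Polynomial.C (c j) * Polynomial.X ^ n j
  have hΨ : Ψ = 0 := by
    apply Polynomial.eq_zero_of_natDegree_lt_card_of_eval_eq_zero Ψ Function.injective_id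
    · intro t
      simp only [Ψ, Polynomial.eval_finsetSum, Polynomial.eval_mul, Polynomial.eval_C,
        Polynomial.eval_pow, Polynomial.eval_X, id]
      exact h t
    · have hpos : 0 < Fintype.card K := Fintype.card_pos
      have : Ψ.natDegree ≤ Fintype.card K - 1 := by
        apply Polynomial.natDegree_sum_le_of_forall_le
        intro j hj
        have := hn j hj
        exact (Polynomial.natDegree_C_mul_X_pow_le _ _).trans (by omega)
      omega
  have h2 := congrArg (fun Q => Polynomial.coeff Q (n i)) hΨ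
  simp only [Ψ, Polynomial.finsetSum_coeff, Polynomial.coeff_C_mul_X_pow,
    Polynomial.coeff_zero] at h2
  rw [Finset.sum_eq_single i] at h2
  · simpa using h2
  · intro j hj hji
    rw [if_neg]
    intro e
    exact hji (hinj hj hi e.symm)
  · intro h; exact absurd hi h

/-- evaluation at `(t, t ^ p)` -/
noncomputable def ev (p : ℕ) (P : MvPolynomial (Fin 2) K) (t : K) : K := eval ![t, t ^ p] P

theorem digits_inj {p a b c d : ℕ} (ha : a < p) (hc : c < p) (h : a + p * b = c + p * d) :
    a = c ∧ b = d := by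
  have h1 : a = c := by
    have := congrArg (· % p) h
    simpa [Nat.add_mul_mod_self_left, Nat.mod_eq_of_lt ha, Nat.mod_eq_of_lt hc] using this
  subst h1
  refine ⟨rfl, ?_⟩
  have hp : 0 < p := by omega
  exact Nat.eq_of_mul_eq_mul_left hp (by omega)

theorem digits_lt {p a b : ℕ} (ha : a < p) (hb : b < p) : a + p * b < p ^ 2 := by
  have : p * (b + 1) ≤ p * p := Nat.mul_le_mul_left p hb
  rw [pow_two]; nlinarith

theorem ev_inj {p : ℕ} (hq : Fintype.card K = p ^ 2) (P : MvPolynomial (Fin 2) K)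
    (h0 : degreeOf 0 P < p) (h1 : degreeOf 1 P < p) (h : ∀ t, ev p P t = 0) : P = 0 := by
  have hb0 : ∀ m ∈ P.support, m 0 < p := fun m hm => (monomial_le_degreeOf 0 hm).trans_lt h0
  have hb1 : ∀ m ∈ P.support, m 1 < p := fun m hm => (monomial_le_degreeOf 1 hm).trans_lt h1
  have := coeff_eq_zero_of_sum (K := K) P.support (fun m => m 0 + p * m 1) ?_ ?_
    (fun m => coeff m P) ?_
  · ext m
    by_cases hm : m ∈ P.support
    · simpa using this m hm
    · simpa using hm
  · intro m hm m' hm' e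
    obtain ⟨e0, e1⟩ := digits_inj (hb0 m hm) (hb0 m' hm') e
    ext i
    fin_cases i
    · exact e0
    · exact e1
  · intro m hm
    rw [hq]; exact digits_lt (hb0 m hm) (hb1 m hm)
  · intro t
    rw [← h t, ev, eval_eq']
    refine Finset.sum_congr rfl fun m _ => ?_
    simp [Fin.prod_univ_two, pow_add, pow_mul]

/-- functions represented by a polynomial of bounded bidegree -/
def V (p α β : ℕ) : Submodule K (K → K) where
  carrier := {h | ∃ P : MvPolynomial (Fin 2) K, degreeOf 0 P ≤ α ∧ degreeOf 1 P ≤ β ∧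
    ∀ t, h t = ev p P t}
  add_mem' := by
    rintro f g ⟨P, a1, a2, a3⟩ ⟨Q, b1, b2, b3⟩
    refine ⟨P + Q, (degreeOf_add_le _ _ _).trans (max_le a1 b1),
      (degreeOf_add_le _ _ _).trans (max_le a2 b2), fun t => ?_⟩
    simp [ev, a3, b3]
  zero_mem' := ⟨0, by simp, by simp, fun t => by simp [ev]⟩
  smul_mem' := by
    rintro c f ⟨P, a1, a2, a3⟩
    refine ⟨C c * P, (degreeOf_C_mul_le _ _ _).trans a1, (degreeOf_C_mul_le _ _ _).trans a2,
      fun t => ?_⟩
    simp [ev, a3]

omit [Fintype K] in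
theorem shift_mem_V (p α β : ℕ) (y y' : K) :
    (fun x : K => (x + y) ^ α * (x ^ p + y') ^ β) ∈ V (K := K) p α β := by
  have h00 : degreeOf (0 : Fin 2) (X 0 + C y : MvPolynomial (Fin 2) K) ≤ 1 :=
    (degreeOf_add_le _ _ _).trans (by simp [degreeOf_X, degreeOf_C])
  have h10 : degreeOf (1 : Fin 2) (X 0 + C y : MvPolynomial (Fin 2) K) ≤ 0 :=
    (degreeOf_add_le _ _ _).trans (by simp [degreeOf_X, degreeOf_C])
  have h01 : degreeOf (0 : Fin 2) (X 1 + C y' : MvPolynomial (Fin 2) K) ≤ 0 :=
    (degreeOf_add_le _ _ _).trans (by simp [degreeOf_X, degreeOf_C])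
  have h11 : degreeOf (1 : Fin 2) (X 1 + C y' : MvPolynomial (Fin 2) K) ≤ 1 :=
    (degreeOf_add_le _ _ _).trans (by simp [degreeOf_X, degreeOf_C])
  refine ⟨(X 0 + C y) ^ α * (X 1 + C y') ^ β, ?_, ?_, fun t => by simp [ev]⟩
  · refine (degreeOf_mul_le _ _ _).trans ?_
    have a1 := degreeOf_pow_le (0 : Fin 2) (X 0 + C y : MvPolynomial (Fin 2) K) α
    have a2 := degreeOf_pow_le (0 : Fin 2) (X 1 + C y' : MvPolynomial (Fin 2) K) β
    have := Nat.mul_le_mul_left α h00
    have := Nat.mul_le_mul_left β h01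
    omega
  · refine (degreeOf_mul_le _ _ _).trans ?_
    have a1 := degreeOf_pow_le (1 : Fin 2) (X 0 + C y : MvPolynomial (Fin 2) K) α
    have a2 := degreeOf_pow_le (1 : Fin 2) (X 1 + C y' : MvPolynomial (Fin 2) K) β
    have := Nat.mul_le_mul_left α h10
    have := Nat.mul_le_mul_left β h11
    omega

theorem pow_mem_V {p : ℕ} [Fact p.Prime] [CharP K p] (hq : Fintype.card K = p ^ 2)
    (α β : ℕ) (hα : α < p) (hβ : β < p) (g : K → K)
    (hg : ∀ w : K, (fun x : K => (g x + w) ^ α * (g x ^ p + w ^ p) ^ β) ∈ V (K := K) p α β)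
    (i j : ℕ) (hi : i ≤ α) (hj : j ≤ β) :
    (fun x : K => g x ^ i * (g x ^ p) ^ j) ∈ V (K := K) p α β := by
  have hp : p.Prime := Fact.out
  rw [← Subspace.forall_mem_dualAnnihilator_apply_eq_zero_iff]
  intro φ hφ
  rw [Submodule.mem_dualAnnihilator] at hφ
  have key := coeff_eq_zero_of_sum (K := K) (range (α + 1) ×ˢ range (β + 1))
    (fun m => (α - m.1) + p * (β - m.2)) ?_ ?_
    (fun m => (α.choose m.1 : K) * (β.choose m.2 : K) *
      φ (fun x : K => g x ^ m.1 * (g x ^ p) ^ m.2)) ?_ (i, j)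
      (by simp only [mem_product, mem_range]; omega)
  · have c1 : (α.choose i : K) ≠ 0 := by
      rw [Ne, CharP.cast_eq_zero_iff K p]
      exact (hp.dvd_iff_not_coprime).not.2 (not_not.2 (hp.coprime_choose_of_lt hα hi))
    have c2 : (β.choose j : K) ≠ 0 := by
      rw [Ne, CharP.cast_eq_zero_iff K p]
      exact (hp.dvd_iff_not_coprime).not.2 (not_not.2 (hp.coprime_choose_of_lt hβ hj))
    simpa [c1, c2] using key
  · rintro ⟨a, b⟩ hm ⟨c, d⟩ hm' e
    simp only [coe_product, coe_range, Set.mem_prod, Set.mem_Iio] at hm hm'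
    obtain ⟨e0, e1⟩ := digits_inj (p := p) (by omega) (by omega) e
    simp only [Prod.mk.injEq] at e0 e1 ⊢
    omega
  · rintro ⟨a, b⟩ _
    rw [hq]; exact digits_lt (by omega) (by omega)
  · intro w
    rw [← hφ _ (hg w)]
    have : (fun x : K => (g x + w) ^ α * (g x ^ p + w ^ p) ^ β) =
        ∑ m ∈ range (α + 1) ×ˢ range (β + 1),
          ((α.choose m.1 : K) * (β.choose m.2 : K) * w ^ ((α - m.1) + p * (β - m.2))) •
            (fun x : K => g x ^ m.1 * (g x ^ p) ^ m.2) := by
      funext x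
      rw [add_pow, add_pow, Finset.sum_mul_sum, Finset.sum_apply, Finset.sum_product]
      refine Finset.sum_congr rfl fun a _ => Finset.sum_congr rfl fun b _ => ?_
      simp only [Pi.smul_apply, smul_eq_mul, pow_add, pow_mul]
      ring
    rw [this, map_sum]
    refine Finset.sum_congr rfl fun m _ => ?_
    rw [map_smul, smul_eq_mul]
    ring

/-- conjugate polynomial -/
noncomputable def cj (p : ℕ) [Fact p.Prime] [CharP K p] (P : MvPolynomial (Fin 2) K) :
    MvPolynomial (Fin 2) K :=
  rename (Equiv.swap 0 1) (map (frobenius K p) P)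

theorem pow_sq_eq {p : ℕ} (hq : Fintype.card K = p ^ 2) (t : K) : (t ^ p) ^ p = t := by
  rw [← pow_mul, ← pow_two, ← hq, FiniteField.pow_card]

theorem ev_cj {p : ℕ} [Fact p.Prime] [CharP K p] (hq : Fintype.card K = p ^ 2)
    (P : MvPolynomial (Fin 2) K) (t : K) : ev p (cj p P) t = (ev p P t) ^ p := by
  induction P using MvPolynomial.induction_on with
  | C a => simp [ev, cj, frobenius_def]
  | add P Q hP hQ =>
    simp only [ev, cj, map_add] at hP hQ ⊢
    rw [hP, hQ, add_pow_char]
  | mul_X P i hP =>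
    simp only [ev, cj, map_mul] at hP ⊢
    rw [hP, mul_pow]
    congr 1
    fin_cases i
    · simp
    · simp [pow_sq_eq hq]

omit [Fintype K] in
theorem degreeOf_map_inj (f : K →+* K) (i : Fin 2) (P : MvPolynomial (Fin 2) K) :
    degreeOf i (map f P) = degreeOf i P := by
  rw [degreeOf_eq_sup, degreeOf_eq_sup, support_map_of_injective _ f.injective]

omit [Fintype K] in
theorem deg_cj0 {p : ℕ} [Fact p.Prime] [CharP K p] (P : MvPolynomial (Fin 2) K) :
    degreeOf 0 (cj p P) = degreeOf 1 P := by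
  have := degreeOf_rename_of_injective (p := map (frobenius K p) P)
    (Equiv.swap (0 : Fin 2) 1).injective 1
  rw [Equiv.swap_apply_right, degreeOf_map_inj] at this
  exact this

omit [Fintype K] in
theorem deg_cj1 {p : ℕ} [Fact p.Prime] [CharP K p] (P : MvPolynomial (Fin 2) K) :
    degreeOf 1 (cj p P) = degreeOf 0 P := by
  have := degreeOf_rename_of_injective (p := map (frobenius K p) P)
    (Equiv.swap (0 : Fin 2) 1).injective 0
  rw [Equiv.swap_apply_left, degreeOf_map_inj] at this
  exact this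

theorem deg_le_of_mem_V {p : ℕ} (hq : Fintype.card K = p ^ 2) {α β : ℕ} (hα : α < p) (hβ : β < p)
    (P : MvPolynomial (Fin 2) K) (h0 : degreeOf 0 P < p) (h1 : degreeOf 1 P < p)
    (h : ev p P ∈ V (K := K) p α β) : degreeOf 0 P ≤ α ∧ degreeOf 1 P ≤ β := by
  obtain ⟨Q, a1, a2, a3⟩ := h
  have : P - Q = 0 := by
    apply ev_inj hq
    · exact (degreeOf_sub_le _ _ _).trans_lt (max_lt h0 (by omega))
    · exact (degreeOf_sub_le _ _ _).trans_lt (max_lt h1 (by omega))
    · intro t
      have := a3 t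
      simp only [ev, map_sub] at this ⊢
      rw [this, sub_self]
  rw [sub_eq_zero.1 this]
  exact ⟨a1, a2⟩

omit [Fintype K] in
theorem eq_of_deg (P : MvPolynomial (Fin 2) K) (i j : Fin 2) (hij : i ≠ j)
    (hi : degreeOf i P ≤ 1) (hj : degreeOf j P = 0) :
    P = C (coeff (Finsupp.single i 1) P) * X i + C (coeff 0 P) := by
  ext m
  rw [coeff_add, coeff_C_mul, coeff_X, coeff_C]
  by_cases h1 : Finsupp.single i 1 = m
  · subst h1
    have : (0 : Fin 2 →₀ ℕ) ≠ Finsupp.single i 1 := (Finsupp.single_ne_zero.2 one_ne_zero).symm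
    simp [this]
  · by_cases h2 : 0 = m
    · subst h2; simp [h1]
    · rw [if_neg h1, if_neg h2]
      simp only [mul_zero, add_zero]
      by_contra hm
      have hm' : m ∈ P.support := mem_support_iff.2 hm
      have b1 := (monomial_le_degreeOf i hm').trans hi
      have b2 := (monomial_le_degreeOf j hm').trans hj.le
      have hk : ∀ k : Fin 2, k = i ∨ k = j := by
        intro k; revert hij; fin_cases i <;> fin_cases j <;> fin_cases k <;> simp
      rcases Nat.le_one_iff_eq_zero_or_eq_one.1 b1 with h | h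
      · apply h2
        ext k
        rcases hk k with rfl | rfl
        · simp [h]
        · simp; omega
      · apply h1
        ext k
        rcases hk k with rfl | rfl
        · simp [h]
        · rw [Finsupp.single_eq_of_ne hij.symm]; omega

theorem mcconnel {p : ℕ} [Fact p.Prime] [CharP K p] (hq : Fintype.card K = p ^ 2)
    (α β : ℕ) (hα : 1 ≤ α) (hβ : 1 ≤ β) (hαβ : α + β < p) (g : K → K)
    (hgb : Function.Bijective g)
    (hg : ∀ x y, (g x - g y) ^ (α + p * β) = (x - y) ^ (α + p * β)) :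
    ∃ a b : K, (∀ x, g x = a * x + b) ∨ (∀ x, g x = a * x ^ p + b) := by
  have hV : ∀ i j, i ≤ α → j ≤ β → (fun x : K => g x ^ i * (g x ^ p) ^ j) ∈ V (K := K) p α β := by
    apply pow_mem_V hq α β (by omega) (by omega) g
    intro w
    obtain ⟨y, hy⟩ := hgb.2 (-w)
    have hw : w = - g y := by rw [hy, neg_neg]
    have := shift_mem_V (K := K) p α β (-y) (-(y ^ p))
    convert this using 2 with x
    have h1 := hg x y
    rw [pow_add, pow_add, pow_mul, pow_mul, sub_pow_char (p := p), sub_pow_char (p := p)] at h1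
    rw [hw, ← add_pow_char (p := p), ← sub_eq_add_neg, sub_pow_char (p := p), h1]
    simp only [sub_eq_add_neg]
  obtain ⟨G, g0, g1, hG⟩ := hV 1 0 hα (Nat.zero_le _)
  have hG' : ∀ t, ev p G t = g t := fun t => by simpa using (hG t).symm
  have hG0 : G ≠ 0 := by
    rintro rfl
    have e0 := hG' 0
    have e1 := hG' 1
    simp only [ev, map_zero] at e0 e1
    exact zero_ne_one (hgb.1 (e0.symm.trans e1))
  have hc : ∀ t, ev p (cj p G) t = g t ^ p := fun t => by rw [ev_cj hq, hG']
  have hc0 : cj p G ≠ 0 := by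
    intro h
    apply hG0
    have h2 : map (frobenius K p) G = 0 := by
      apply rename_injective _ (Equiv.swap (0 : Fin 2) 1).injective
      rw [map_zero]; exact h
    exact map_injective _ (frobenius K p).injective (by rw [h2, map_zero])
  set u := degreeOf 0 G with hu
  set v := degreeOf 1 G with hv
  have hcb := deg_le_of_mem_V hq (α := α) (β := β) (by omega) (by omega) (cj p G)
    (by rw [deg_cj0]; omega) (by rw [deg_cj1]; omega) (by
      have := hV 0 1 (Nat.zero_le _) hβ
      convert this using 1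
      funext t; simp [hc])
  rw [deg_cj0, deg_cj1, ← hu, ← hv] at hcb
  have hd0 : ∀ i j, degreeOf 0 (G ^ i * cj p G ^ j) = i * u + j * v := by
    intro i j
    rw [degreeOf_mul_eq (pow_ne_zero _ hG0) (pow_ne_zero _ hc0), degreeOf_pow_eq _ _ _ hG0,
      degreeOf_pow_eq _ _ _ hc0, deg_cj0]
  have hd1 : ∀ i j, degreeOf 1 (G ^ i * cj p G ^ j) = i * v + j * u := by
    intro i j
    rw [degreeOf_mul_eq (pow_ne_zero _ hG0) (pow_ne_zero _ hc0), degreeOf_pow_eq _ _ _ hG0,
      degreeOf_pow_eq _ _ _ hc0, deg_cj1]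
  have step : ∀ i j, i ≤ α → j ≤ β → i * u + j * v < p → i * v + j * u < p →
      i * u + j * v ≤ α ∧ i * v + j * u ≤ β := by
    intro i j hi hj b0 b1
    have := deg_le_of_mem_V hq (α := α) (β := β) (by omega) (by omega) (G ^ i * cj p G ^ j)
      (by rwa [hd0]) (by rwa [hd1]) (by
        have := hV i j hi hj
        convert this using 1
        funext t
        have e1 := hG' t
        have e2 := hc t
        simp only [ev, map_mul, map_pow] at e1 e2 ⊢
        rw [e1, e2])
    rwa [hd0, hd1] at this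
  have ind1 : ∀ i, i ≤ α → i * u + 0 * v ≤ α ∧ i * v + 0 * u ≤ β := by
    intro i
    induction i with
    | zero => intro _; simp
    | succ i ih =>
      intro hi
      obtain ⟨b0, b1⟩ := ih (by omega)
      apply step _ _ hi (Nat.zero_le _)
      · rw [Nat.succ_mul]; omega
      · rw [Nat.succ_mul]; omega
  have ind2 : ∀ j, j ≤ β → α * u + j * v ≤ α ∧ α * v + j * u ≤ β := by
    intro j
    induction j with
    | zero => intro _; exact ind1 α le_rfl
    | succ j ih =>
      intro hj
      obtain ⟨b0, b1⟩ := ih (by omega)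
      apply step _ _ le_rfl hj
      · rw [Nat.succ_mul]; omega
      · rw [Nat.succ_mul]; omega
  obtain ⟨f0, f1⟩ := ind2 β le_rfl
  have huv : u + v ≤ 1 := by
    by_contra h
    have : (α + β) * 2 ≤ (α + β) * (u + v) := Nat.mul_le_mul_left _ (by omega)
    nlinarith
  by_cases hv0 : v = 0
  · have := eq_of_deg G 0 1 (by decide) (by omega) hv0
    refine ⟨coeff (Finsupp.single 0 1) G, coeff 0 G, Or.inl fun x => ?_⟩
    rw [← hG']
    conv_lhs => rw [this]
    simp only [ev, map_add, map_mul, eval_C, eval_X, Matrix.cons_val_zero]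
  · have := eq_of_deg G 1 0 (by decide) (by omega) (by omega)
    refine ⟨coeff (Finsupp.single 1 1) G, coeff 0 G, Or.inr fun x => ?_⟩
    rw [← hG']
    conv_lhs => rw [this]
    simp only [ev, map_add, map_mul, eval_C, eval_X, Matrix.cons_val_one, Matrix.cons_val_zero]

end Pool.Agent.Lib.MP_51f8fd_al
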