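import Pool.Agent.Lib.MP_51f8fd_al.FieldBasic
import Pool.Agent.Lib.MP_51f8fd_al.McConnel

namespace Pool.Agent.Lib.MP_51f8fd_al

open Equiv

variable {K : Type*} [Field K]

/-- invariance of a set under the stabilizer of `0` and `1` -/
def Inv01 (Γ : Subgroup (Perm K)) (U : Set K) : Prop :=
  ∀ f ∈ Γ, f 0 = 0 → f 1 = 1 → ∀ u ∈ U, f u ∈ U

theorem Inv01.rel {Γ : Subgroup (Perm K)} (hT : ∀ c : K, Equiv.addRight c ∈ Γ)
    (hS : ∀ (c : K) (hc : c ≠ 0), Equiv.mulLeft₀ c hc ∈ Γ) {U : Set K} (hU : Inv01 Γ U)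
    {f : Perm K} (hf : f ∈ Γ) (a u : K) (hu : u ≠ 0) {d : K} (hd : d ∈ U) :
    ∃ d' ∈ U, f (a + u * d) - f a = d' * (f (a + u) - f a) := by
  have hv : f (a + u) - f a ≠ 0 := by
    rw [sub_ne_zero]
    intro h
    exact hu (by simpa using f.injective h)
  have h := hU (Equiv.mulLeft₀ _ (inv_ne_zero hv) * Equiv.addRight (-f a) * f * Equiv.addRight a *
    Equiv.mulLeft₀ u hu)
    (Γ.mul_mem (Γ.mul_mem (Γ.mul_mem (Γ.mul_mem (hS _ _) (hT _)) hf) (hT _)) (hS _ _))
    (by simp) (by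
      simp only [Perm.mul_apply, Equiv.mulLeft₀_apply, Equiv.coe_addRight, mul_one]
      rw [add_comm u a, ← sub_eq_add_neg, inv_mul_cancel₀ hv]) d hd
  refine ⟨_, h, ?_⟩
  simp only [Perm.mul_apply, Equiv.mulLeft₀_apply, Equiv.coe_addRight]
  rw [add_comm (u * d) a, ← sub_eq_add_neg]
  field_simp

variable [Fintype K] {p : ℕ} [Fact p.Prime] [CharP K p]

theorem caseA (hq : Fintype.card K = p ^ 2) {Γ : Subgroup (Perm K)}
    (hT : ∀ c : K, Equiv.addRight c ∈ Γ)
    (hS : ∀ (c : K) (hc : c ≠ 0), Equiv.mulLeft₀ c hc ∈ Γ) {U : Set K} (hU : Inv01 Γ U)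
    (e : ℕ) (he : ∀ d ∈ U, d ^ e = 1) {d : K} (hd : d ∈ U) (hd2 : d * d ∈ U) (hdp : d ^ p ≠ d)
    {f : Perm K} (hf : f ∈ Γ) (a a' u : K) :
    (f (a + u) - f a) ^ e = (f (a' + u) - f a') ^ e := by
  by_cases hu : u = 0
  · simp [hu]
  let N : AddSubgroup K :=
    { carrier := {c | ∀ a, (f (a + c + u) - f (a + c)) ^ e = (f (a + u) - f a) ^ e}
      add_mem' := by
        intro x y hx hy a
        rw [← add_assoc, hy, hx]
      zero_mem' := by intro a; simp
      neg_mem' := by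
        intro x hx a
        have := hx (a + -x)
        simpa using this.symm }
  have hN : ∀ δ ∈ U, (1 - δ) * u ∈ N := by
    intro δ hδ a
    obtain ⟨d1, hd1, e1⟩ := hU.rel hT hS hf (a + (1 - δ) * u) u hu hδ
    obtain ⟨d2, hd2, e2⟩ := hU.rel hT hS hf (a + u) (-u) (neg_ne_zero.2 hu) hδ
    rw [show a + (1 - δ) * u + u * δ = a + u by ring] at e1
    rw [show a + u + -u * δ = a + (1 - δ) * u by ring, show a + u + -u = a by ring] at e2
    have e3 : d1 * (f (a + (1 - δ) * u + u) - f (a + (1 - δ) * u)) = d2 * (f (a + u) - f a) := by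
      linear_combination -e1 - e2
    have e4 := congrArg (· ^ e) e3
    simpa [mul_pow, he d1 hd1, he d2 hd2] using e4
  have hd1 : 1 - d ≠ 0 := by
    intro h
    apply hdp
    rw [← sub_eq_zero.1 h, one_pow]
  have hall : ∀ z, z ∈ N := by
    intro z
    obtain ⟨i, j, hij⟩ := span2 hq hdp (z / ((1 - d) * u))
    have : z = i • ((1 - d) * u) + j • ((1 - d * d) * u - (1 - d) * u) := by
      rw [div_eq_iff (mul_ne_zero hd1 hu)] at hij
      rw [hij, zsmul_eq_mul, zsmul_eq_mul]; ring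
    rw [this]
    exact N.add_mem (N.zsmul_mem (hN d hd) i) (N.zsmul_mem (N.sub_mem (hN _ hd2) (hN d hd)) j)
  have := hall (a - a') a'
  simpa using this

omit [Fintype K] in
theorem lineB {Γ : Subgroup (Perm K)}
    (hT : ∀ c : K, Equiv.addRight c ∈ Γ)
    (hS : ∀ (c : K) (hc : c ≠ 0), Equiv.mulLeft₀ c hc ∈ Γ) {U : Set K} (hU : Inv01 Γ U)
    (he : ∀ d ∈ U, d ^ p = d) {d : K} (hd : d ∈ U) (hd0 : d ≠ 0) (hdi : d⁻¹ ∈ U) (hd1 : d ≠ 1) :
    Inv01 Γ {w | w ^ p = w} := by
  intro f hf f0 f1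
  have hp0 : p ≠ 0 := (Fact.out : p.Prime).ne_zero
  have hL : ∀ z w, f z ^ p = f z → f w ^ p = f w → ∀ δ ∈ U,
      f (z + (w - z) * δ) ^ p = f (z + (w - z) * δ) := by
    intro z w hz hw δ hδ
    by_cases h : w - z = 0
    · rw [h]; simpa using hz
    obtain ⟨d', hd', e⟩ := hU.rel hT hS hf z (w - z) h hδ
    rw [add_sub_cancel, sub_eq_iff_eq_add] at e
    rw [e, add_pow_char, mul_pow, sub_pow_char, he d' hd', hz, hw]
  have hstep : ∀ w, f w ^ p = f w → f (w + (1 - d)) ^ p = f (w + (1 - d)) := by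
    intro w hw
    have h1 := hL 0 w (by rw [f0, zero_pow hp0]) hw _ hdi
    have h2 := hL 1 _ (by rw [f1, one_pow]) h1 d hd
    have : 1 + (0 + (w - 0) * d⁻¹ - 1) * d = w + (1 - d) := by field_simp; ring
    rwa [this] at h2
  have hn : ∀ n : ℕ, f (n * (1 - d)) ^ p = f (n * (1 - d)) := by
    intro n
    induction n with
    | zero => simp [f0, hp0]
    | succ n ih =>
      have := hstep _ ih
      rwa [show (n : K) * (1 - d) + (1 - d) = ((n + 1 : ℕ) : K) * (1 - d) by push_cast; ring]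
        at this
  intro w hw
  have hd1' : 1 - d ≠ 0 := sub_ne_zero.2 hd1.symm
  obtain ⟨n, hn'⟩ := fixed_int (p := p) (w := w / (1 - d)) (by
    rw [div_pow, sub_pow_char, one_pow, he d hd, show w ^ p = w from hw])
  have : NeZero p := ⟨hp0⟩
  have e : (((n : ZMod p).val : ℕ) : K) = n := by
    simp
  have := hn (n : ZMod p).val
  rw [e, hn', div_mul_cancel₀ _ hd1'] at this
  exact this

theorem caseB (hq : Fintype.card K = p ^ 2) {Γ : Subgroup (Perm K)}
    (hT : ∀ c : K, Equiv.addRight c ∈ Γ)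
    (hS : ∀ (c : K) (hc : c ≠ 0), Equiv.mulLeft₀ c hc ∈ Γ) (hU : Inv01 Γ {w | w ^ p = w})
    {f : Perm K} (hf : f ∈ Γ) (a a' u : K) (hu : u ≠ 0) :
    ∃ d : K, d ^ p = d ∧ f (a' + u) - f a' = d * (f (a + u) - f a) := by
  have hne : ∀ a, f (a + u) - f a ≠ 0 := by
    intro a
    rw [sub_ne_zero]
    intro h
    exact hu (by simpa using f.injective h)
  by_contra hcon
  push Not at hcon
  set v := f (a + u) - f a with hv
  set v' := f (a' + u) - f a' with hv'
  have hv0 : v ≠ 0 := hne a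
  have hθ : (v' / v) ^ p ≠ v' / v := fun h => hcon _ h (by field_simp)
  obtain ⟨i, j, hij⟩ := span2 hq hθ ((f a' - f a) / v)
  have hz : f a + v * i = f a' + v' * ((-j : ℤ) : K) := by
    rw [div_eq_iff hv0] at hij
    push_cast
    have : v' / v * v = v' := by field_simp
    linear_combination -hij - j * this
  obtain ⟨d1, hd1, e1⟩ := hU.rel hT hS (Γ.inv_mem hf) (f a) v hv0 (d := i) (int_fixed p i)
  obtain ⟨d2, hd2, e2⟩ := hU.rel hT hS (Γ.inv_mem hf) (f a') v' (hne a') (d := ((-j : ℤ) : K))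
    (int_fixed p (-j))
  rw [hz] at e1
  rw [show f a + v = f (a + u) by rw [hv]; ring] at e1
  rw [show f a' + v' = f (a' + u) by rw [hv']; ring] at e2
  simp only [Perm.coe_inv, symm_apply_apply, add_sub_cancel_left] at e1 e2
  have ha' : a' = a + u * (d1 - d2) := by linear_combination e1 - e2
  have hd12 : (d1 - d2) ^ p = d1 - d2 := by
    rw [sub_pow_char, show d1 ^ p = d1 from hd1, show d2 ^ p = d2 from hd2]
  obtain ⟨d3, hd3, e3⟩ := hU.rel hT hS hf a u hu (d := d1 - d2) hd12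
  obtain ⟨d4, hd4, e4⟩ := hU.rel hT hS hf a u hu (d := d1 - d2 + 1)
    (show (d1 - d2 + 1) ^ p = d1 - d2 + 1 by rw [add_pow_char, hd12, one_pow])
  rw [← ha'] at e3
  rw [show a + u * (d1 - d2 + 1) = a' + u by rw [ha']; ring] at e4
  apply hcon (d4 - d3)
  · rw [sub_pow_char, show d3 ^ p = d3 from hd3, show d4 ^ p = d4 from hd4]
  · rw [hv']; linear_combination e4 - e3

theorem translation_of_order (hq : Fintype.card K = p ^ 2) (hp2 : p ≠ 2) (g : K → K)
    (hg : g^[p] = id)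
    (h : ∃ a b : K, (∀ x, g x = a * x + b) ∨ (∀ x, g x = a * x ^ p + b)) :
    ∀ x, g x = x + g 0 := by
  have hp : p.Prime := Fact.out
  obtain ⟨a, b, h | h⟩ := h
  · have key : ∀ k, g^[k] 1 - g^[k] 0 = a ^ k := by
      intro k
      induction k with
      | zero => simp
      | succ k ih =>
        rw [Function.iterate_succ_apply', Function.iterate_succ_apply', h, h, pow_succ', ← ih]
        ring
    have h1 := key p
    rw [hg] at h1
    have h2 : a = 1 := by
      apply (frobenius K p).injective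
      simpa [frobenius_def] using h1.symm
    intro x
    rw [h, h, h2]; ring
  · exfalso
    have hpp : ∀ t : K, (t ^ p) ^ p = t := pow_sq_eq hq
    have key : ∀ k, ∃ c : K, ∀ x, g^[2 * k + 1] x - g^[2 * k + 1] 0 = c * x ^ p := by
      intro k
      induction k with
      | zero =>
        refine ⟨a, fun x => ?_⟩
        simp [h, hp.ne_zero]
      | succ k ih =>
        obtain ⟨c, hc⟩ := ih
        refine ⟨a * a ^ p * c, fun x => ?_⟩
        rw [show 2 * (k + 1) + 1 = (2 * k + 1) + 1 + 1 by ring]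
        simp only [Function.iterate_succ_apply' (f := g) (n := 2 * k + 1 + 1),
          Function.iterate_succ_apply' (f := g) (n := 2 * k + 1)]
        rw [h, h (g _), h, h (g^[2 * k + 1] 0)]
        simp only [add_pow_char, mul_pow, hpp]
        linear_combination a * a ^ p * hc x
    obtain ⟨k, hk⟩ := hp.odd_of_ne_two hp2
    obtain ⟨c, hc⟩ := key k
    rw [← hk, hg] at hc
    have c1 := hc 1
    simp only [id, sub_zero, one_pow, mul_one] at c1 hc
    obtain ⟨t, ht⟩ := exists_not_fixed (K := K) hq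
    apply ht
    rw [hc t, ← c1, one_mul, hpp, ← one_mul (t ^ p), c1, ← hc]

theorem additive_of_pow (hq : Fintype.card K = p ^ 2) (hp2 : p ≠ 2)
    (α β : ℕ) (hα : 1 ≤ α) (hβ : 1 ≤ β) (hαβ : α + β < p) (f : Perm K) (f0 : f 0 = 0)
    (h : ∀ a a' u, (f (a + u) - f a) ^ (α + p * β) = (f (a' + u) - f a') ^ (α + p * β)) :
    ∀ x y, f (x + y) = f x + f y := by
  intro x c
  let g : K → K := fun z => f (f.symm z + c)
  have hgb : Function.Bijective g :=
    f.bijective.comp ((Equiv.addRight c).bijective.comp f.symm.bijective)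
  have hgi : ∀ k z, g^[k] z = f (f.symm z + k * c) := by
    intro k
    induction k with
    | zero => simp
    | succ k ih =>
      intro z
      rw [Function.iterate_succ_apply', ih]
      simp only [g, symm_apply_apply]
      congr 1; push_cast; ring
  have hgp : g^[p] = id := by
    funext z; rw [hgi]; simp
  have := translation_of_order hq hp2 g hgp (mcconnel hq α β hα hβ hαβ g hgb (by
    intro z w
    have := h (f.symm w + c) (f.symm w) (f.symm z - f.symm w)
    rw [show f.symm w + c + (f.symm z - f.symm w) = f.symm z + c by ring] at this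
    simpa [g] using this)) (f x)
  have h0 : f.symm 0 = 0 := by rw [symm_apply_eq, f0]
  simpa [g, h0] using this

theorem additive_of_block (hq : Fintype.card K = p ^ 2) (hp2 : p ≠ 2) {Γ : Subgroup (Perm K)}
    (hT : ∀ c : K, Equiv.addRight c ∈ Γ)
    (hS : ∀ (c : K) (hc : c ≠ 0), Equiv.mulLeft₀ c hc ∈ Γ)
    (D : Subgroup Kˣ) (hD1 : D ≠ ⊥) (hD2 : D ≠ ⊤)
    (hU : Inv01 Γ (Units.val '' (D : Set Kˣ))) :
    ∀ f ∈ Γ, f 0 = 0 → ∀ x y, f (x + y) = f x + f y := by
  classical
  have hp : p.Prime := Fact.out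
  intro f hf f0
  by_cases hA : ∃ d ∈ D, (d : K) ^ p ≠ d
  · obtain ⟨d, hd, hdp⟩ := hA
    obtain ⟨r, hr, k, hk⟩ := Nat.exists_prime_and_dvd (n := D.index) (by
      rwa [Ne, Subgroup.index_eq_one])
    have hc := D.card_mul_index
    rw [Nat.card_units, Nat.card_eq_fintype_card (α := K), hq, hk] at hc
    obtain ⟨α, β, hα, hβ, hαβ, he⟩ := digits hp2 hr (p := p) ⟨Nat.card D * k, by rw [← hc]; ring⟩
    have he2 : α + p * β = Nat.card D * k := by
      apply Nat.eq_of_mul_eq_mul_left hr.pos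
      rw [he, ← hc]; ring
    apply additive_of_pow hq hp2 α β hα hβ hαβ f f0
    intro a a' u
    refine caseA hq hT hS hU _ ?_ ⟨d, hd, rfl⟩ ⟨d * d, D.mul_mem hd hd, by simp⟩ hdp hf a a' u
    rintro _ ⟨x, hx, rfl⟩
    have : (⟨x, hx⟩ : D) ^ Nat.card D = 1 := pow_card_eq_one'
    have h2 : x ^ Nat.card D = 1 := congrArg Subtype.val this
    rw [he2, ← Units.val_pow_eq_pow_val, pow_mul, h2]; simp
  · push Not at hA
    obtain ⟨⟨d, hd⟩, hd1⟩ := Subgroup.ne_bot_iff_exists_ne_one.1 hD1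
    have hB := lineB (p := p) hT hS hU (by rintro _ ⟨x, hx, rfl⟩; exact hA x hx) (d := d)
      ⟨d, hd, rfl⟩ d.ne_zero ⟨d⁻¹, D.inv_mem hd, by simp⟩ (by
        intro h; apply hd1; ext; simpa using h)
    obtain ⟨k, hk⟩ := hp.odd_of_ne_two hp2
    have hk1 : 1 ≤ k := by have := hp.two_le; omega
    apply additive_of_pow hq hp2 k k hk1 hk1 (by omega) f f0
    intro a a' u
    by_cases hu : u = 0
    · simp [hu]
    obtain ⟨δ, hδ, e⟩ := caseB hq hT hS hB hf a a' u hu
    have hδ0 : δ ≠ 0 := by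
      rintro rfl
      rw [zero_mul, sub_eq_zero] at e
      exact hu (by simpa using f.injective e)
    have h1 : δ ^ (2 * k) = 1 := by
      apply mul_right_cancel₀ hδ0
      rw [← pow_succ, ← hk, hδ, one_mul]
    rw [e, mul_pow, show k + p * k = 2 * k * (k + 1) by rw [hk]; ring, pow_mul δ, h1, one_pow,
      one_mul]

end Pool.Agent.Lib.MP_51f8fd_al
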