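import Pool.Agent.Lib.MP_51f8fd_al.Schur

namespace Pool.Agent.Lib.MP_51f8fd_al

theorem exists_involution {G : Type*} [Group G] (A Y : Subgroup G) (hYA : Y ≤ A)
    (hodd : Odd (Y.relIndex A)) (x : G) (hxA : x ∉ A) (hx : ∀ y ∈ Y, x⁻¹ * y * x ∈ Y)
    (hxx : x * x ∈ Y) (S : Set G) (hS : ∀ s ∈ S, s⁻¹ ∈ S)
    (huniq : ∀ g, g ∉ A → ∃! s, s ∈ S ∧ s * g ∈ A) : ∃ y ∈ Y, (x * y) * (x * y) = 1 := by
  classical
  have hax : ∀ a : A, (a : G) * x ∉ A := fun a h => hxA ((A.mul_mem_cancel_left a.2).1 h)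
  choose s hs hsu using fun a : A => huniq _ (hax a)
  let b : A → A := fun a => ⟨s a * (a * x), (hs a).2⟩
  have hsy : ∀ a a' : A, (a : G)⁻¹ * a' ∈ Y → s a' = s a := by
    intro a a' h
    symm
    apply hsu a'
    refine ⟨(hs a).1, ?_⟩
    have := A.mul_mem (hs a).2 (hYA (hx _ h))
    simpa [mul_assoc] using this
  have hsb : ∀ a : A, s (b a) = (s a)⁻¹ := by
    intro a
    symm
    apply hsu (b a)
    refine ⟨hS _ (hs a).1, ?_⟩
    have := A.mul_mem a.2 (hYA hxx)
    simpa [b, mul_assoc] using this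
  let Q := A ⧸ Y.subgroupOf A
  have hfin : Finite Q := by
    apply Nat.finite_of_card_ne_zero
    intro h
    have : Y.relIndex A = 0 := h
    rw [this] at hodd
    exact absurd hodd (by decide)
  have := Fintype.ofFinite Q
  have hmk : ∀ a a' : A, (QuotientGroup.mk a : Q) = QuotientGroup.mk a' ↔ (a : G)⁻¹ * a' ∈ Y := by
    intro a a'
    rw [QuotientGroup.eq, Subgroup.mem_subgroupOf]; rfl
  let φ : Q → Q := fun q => QuotientGroup.mk (b q.out)
  have hφ : ∀ a : A, φ (QuotientGroup.mk a) = QuotientGroup.mk (b a) := by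
    intro a
    have h1 : (a : G)⁻¹ * ((QuotientGroup.mk a : Q).out : A) ∈ Y := by
      rw [← hmk]; exact (QuotientGroup.out_eq' _).symm
    symm
    rw [hmk]
    simp only [b]
    rw [hsy _ _ h1]
    have := hx _ h1
    simpa [mul_assoc] using this
  have hinv : ∀ q, φ (φ q) = q := by
    intro q
    obtain ⟨a, rfl⟩ := QuotientGroup.mk_surjective q
    rw [hφ a, hφ (b a)]
    symm
    rw [hmk]
    have : ((b (b a) : A) : G) = s (b a) * ((s a * (a * x)) * x) := rfl
    rw [this, hsb]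
    simpa [mul_assoc] using hxx
  have hpar := card_parity (Finset.univ : Finset Q) φ (fun _ _ => Finset.mem_univ _)
    (fun q _ => hinv q)
  have hne : (Finset.univ.filter fun q => φ q = q).Nonempty := by
    rw [Finset.nonempty_iff_ne_empty]
    intro h
    rw [h, Finset.card_univ, ← Nat.card_eq_fintype_card, Finset.card_empty, Nat.cast_zero,
      ZMod.natCast_eq_zero_iff_even] at hpar
    exact (Nat.not_even_iff_odd.2 hodd) hpar
  obtain ⟨q, hq⟩ := hne
  obtain ⟨a, rfl⟩ := QuotientGroup.mk_surjective q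
  have h1 := (Finset.mem_filter.1 hq).2
  rw [hφ a, eq_comm, hmk] at h1
  have h2 := hsy _ _ h1
  rw [hsb] at h2
  refine ⟨_, Y.inv_mem h1, ?_⟩
  have h3 : s a * s a = 1 := by
    nth_rewrite 1 [← h2]; simp
  have h4 : x * ((a : G)⁻¹ * (b a : A))⁻¹ = (a : G)⁻¹ * (s a)⁻¹ * a := by
    simp [b, mul_assoc]
  rw [h4, h2]
  calc (a : G)⁻¹ * s a * a * ((a : G)⁻¹ * s a * a) = (a : G)⁻¹ * (s a * s a) * a := by group
    _ = 1 := by rw [h3]; simp

end Pool.Agent.Lib.MP_51f8fd_al
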