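import Pool.Agent.Lib.MP_51f8fd_al.Code

set_option autoImplicit false

namespace Pool.Agent.Lib.MP_51f8fd_al

open Finset

variable {G : Type*} [Group G]

/-- `A` has an inverse-closed transversal -/
def Code (A : Subgroup G) : Prop :=
  ∃ S : Set G, (1 : G) ∉ S ∧ (∀ s ∈ S, s⁻¹ ∈ S) ∧ ∀ g, g ∉ A → ∃! s, s ∈ S ∧ s * g ∈ A

/-- the elements of `A` that fix the coset `x A` -/
def fx (A : Subgroup G) (x : G) : Subgroup G := A ⊓ A.comap (MulAut.conj x⁻¹).toMonoidHom

lemma mem_fx {A : Subgroup G} {x a : G} : a ∈ fx A x ↔ a ∈ A ∧ x⁻¹ * a * x ∈ A := by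
  simp [fx]

lemma card_fx (A : Subgroup G) (x : G) : Nat.card (fx A x) = Nat.card (fx A x⁻¹) :=
  Nat.card_congr
    { toFun := fun a => ⟨x⁻¹ * a * x, mem_fx.2 ⟨(mem_fx.1 a.2).2, by
        simpa [mul_assoc] using (mem_fx.1 a.2).1⟩⟩
      invFun := fun a => ⟨x * a * x⁻¹, mem_fx.2 ⟨by simpa using (mem_fx.1 a.2).2, by
        simpa [mul_assoc] using (mem_fx.1 a.2).1⟩⟩
      left_inv := fun a => Subtype.ext (by simp [mul_assoc])
      right_inv := fun a => Subtype.ext (by simp [mul_assoc]) }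

lemma relIndex_fx_inv [Finite G] (A : Subgroup G) (x : G) :
    (fx A x).relIndex A = (fx A x⁻¹).relIndex A := by
  have k : ∀ y, (fx A y).relIndex A * Nat.card (fx A y) = Nat.card A := fun y => by
    rw [← Nat.card_congr (Subgroup.subgroupOfEquivOfLe (show fx A y ≤ A from inf_le_left)).toEquiv]
    exact Subgroup.index_mul_card _
  apply Nat.eq_of_mul_eq_mul_right (Nat.card_pos (α := fx A x))
  rw [k, card_fx, k]

lemma ncard_orbit (A : Subgroup G) (x : G) :
    (MulAction.orbit A (x : G ⧸ A)).ncard = (fx A x).relIndex A := by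
  rw [← MulAction.index_stabilizer]
  show _ = ((fx A x).subgroupOf A).index
  congr 1
  ext a
  rw [MulAction.mem_stabilizer_iff, Subgroup.mem_subgroupOf, mem_fx, and_iff_right a.2, eq_comm]
  show (x : G ⧸ A) = ((a * x : G) : G ⧸ A) ↔ _
  rw [QuotientGroup.eq, mul_assoc]

lemma mem_orbit_mk {A : Subgroup G} {x h : G} :
    (h : G ⧸ A) ∈ MulAction.orbit A (x : G ⧸ A) ↔ ∃ a ∈ A, ∃ b ∈ A, h = a * x * b := by
  constructor
  · rintro ⟨a, ha⟩
    have : ((a * x : G) : G ⧸ A) = h := ha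
    rw [QuotientGroup.eq] at this
    exact ⟨a, a.2, _, this, by group⟩
  · rintro ⟨a, ha, b, hb, rfl⟩
    refine ⟨⟨a, ha⟩, ?_⟩
    show ((a * x : G) : G ⧸ A) = _
    rw [QuotientGroup.eq]; simpa [mul_assoc] using hb

theorem code_of_crit [Finite G] (A : Subgroup G)
    (h : ∀ x, x * x ∈ A → Odd ((fx A x).relIndex A) → ∃ a ∈ A, x * a * (x * a) = 1) : Code A := by
  classical
  have := Fintype.ofFinite G
  obtain ⟨S, hS, hmax⟩ := exists_max_image (univ.filter (fun S : Finset G => (∀ s ∈ S, s⁻¹ ∈ S) ∧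
    Set.InjOn (fun g : G => (g : G ⧸ A)) S)) card ⟨∅, by simp⟩
  simp only [mem_filter, mem_univ, true_and] at hS hmax
  have cover : ∀ g : G, ∃ s ∈ S, (s : G ⧸ A) = g := by
    intro g
    by_contra hg
    have grow : ∀ t : G, (t : G ⧸ A) = g → (∀ s ∈ S, (s : G ⧸ A) ≠ (t⁻¹ : G)) →
        (((t⁻¹ : G) : G ⧸ A) = g → t⁻¹ = t) → False := by
      intro t h1 h2 h3
      have tS : t ∉ S := fun e => hg ⟨t, e, h1⟩
      have := hmax (insert t (insert t⁻¹ S)) ⟨fun s hs => by
        simp only [mem_insert] at hs ⊢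
        rcases hs with e | e | e
        · right; left; rw [e]
        · left; rw [e, inv_inv]
        · right; right; exact hS.1 s e, fun u hu v hv e => by
        simp only [coe_insert, Set.mem_insert_iff, mem_coe] at hu hv
        rcases hu with rfl | rfl | hu <;> rcases hv with hv | hv | hv
        · exact hv.symm
        · rw [hv] at e ⊢; exact (h3 (e.symm.trans h1)).symm
        · exact absurd ⟨v, hv, e.symm.trans h1⟩ hg
        · rw [hv] at e ⊢; exact h3 (e.trans h1)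
        · exact hv.symm
        · exact absurd e.symm (h2 v hv)
        · rw [hv] at e; exact absurd ⟨u, hu, e.trans h1⟩ hg
        · rw [hv] at e; exact absurd e (h2 u hu)
        · exact hS.2 hu hv e⟩
      have l1 : (insert t S).card ≤ (insert t (insert t⁻¹ S)).card :=
        card_le_card (insert_subset_insert _ (subset_insert _ _))
      rw [card_insert_of_notMem tS] at l1
      omega
    have noinv : ∀ a ∈ A, g * a * (g * a) ≠ 1 := fun a ha e => by
      have e1 : (g * a)⁻¹ = g * a := inv_eq_of_mul_eq_one_right e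
      have e2 : ((g * a : G) : G ⧸ A) = g := by rw [QuotientGroup.eq]; simpa using ha
      exact grow (g * a) e2 (fun s hs e3 => hg ⟨s, hs, by rw [e3, e1, e2]⟩) (fun _ => e1)
    have full : ∀ c ∈ MulAction.orbit A ((g⁻¹ : G) : G ⧸ A), c = g ∨ ∃ s ∈ S, (s : G ⧸ A) = c := by
      rintro _ ⟨a, rfl⟩
      by_contra hc
      rw [not_or] at hc
      have e1 : (((g * (a : G)⁻¹)⁻¹ : G) : G ⧸ A) = a • ((g⁻¹ : G) : G ⧸ A) := by
        rw [mul_inv_rev, inv_inv]; rfl
      exact grow (g * (a : G)⁻¹) (by rw [QuotientGroup.eq]; simp) (fun s hs e => hc.2 ⟨s, hs, e.trans e1⟩)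
        (fun e => absurd (e1.symm.trans e) hc.1)
    have cnt : ∀ x : G, (S.filter (fun s : G => (s : G ⧸ A) ∈ MulAction.orbit A (x : G ⧸ A))).card
        = ((MulAction.orbit A (x : G ⧸ A)).toFinset.filter (fun c => ∃ s ∈ S, (s : G ⧸ A) = c)).card :=
      fun x => card_bij (fun s _ => (s : G ⧸ A))
        (fun s hs => mem_filter.2 ⟨Set.mem_toFinset.2 (mem_filter.1 hs).2, s, (mem_filter.1 hs).1, rfl⟩)
        (fun s hs t ht e => hS.2 (mem_filter.1 hs).1 (mem_filter.1 ht).1 e)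
        (fun c hc => by
          obtain ⟨h1, s, hs, rfl⟩ := mem_filter.1 hc
          exact ⟨s, mem_filter.2 ⟨hs, Set.mem_toFinset.1 h1⟩, rfl⟩)
    have flip : ∀ x s : G, (s : G ⧸ A) ∈ MulAction.orbit A (x : G ⧸ A) →
        ((s⁻¹ : G) : G ⧸ A) ∈ MulAction.orbit A ((x⁻¹ : G) : G ⧸ A) := fun x s hs => by
      obtain ⟨a, ha, b, hb, rfl⟩ := mem_orbit_mk.1 hs
      exact mem_orbit_mk.2 ⟨b⁻¹, A.inv_mem hb, a⁻¹, A.inv_mem ha, by group⟩
    have c1 : (S.filter (fun s : G => (s : G ⧸ A) ∈ MulAction.orbit A (g : G ⧸ A))).card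
        = (S.filter (fun s : G => (s : G ⧸ A) ∈ MulAction.orbit A ((g⁻¹ : G) : G ⧸ A))).card :=
      card_bij (fun s _ => s⁻¹)
        (fun s hs => mem_filter.2 ⟨hS.1 s (mem_filter.1 hs).1, flip g s (mem_filter.1 hs).2⟩)
        (fun s _ t _ e => inv_injective e)
        (fun s hs => ⟨s⁻¹, mem_filter.2 ⟨hS.1 s (mem_filter.1 hs).1, by
          simpa using flip _ s (mem_filter.1 hs).2⟩, inv_inv s⟩)
    have c2 : (MulAction.orbit A (g : G ⧸ A)).toFinset.card
        = (MulAction.orbit A ((g⁻¹ : G) : G ⧸ A)).toFinset.card := by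
      rw [← Set.ncard_eq_toFinset_card', ← Set.ncard_eq_toFinset_card', ncard_orbit, ncard_orbit,
        relIndex_fx_inv]
    have gm : (g : G ⧸ A) ∈ (MulAction.orbit A (g : G ⧸ A)).toFinset :=
      Set.mem_toFinset.2 (MulAction.mem_orbit_self _)
    by_cases hgo : (g : G ⧸ A) ∈ MulAction.orbit A ((g⁻¹ : G) : G ⧸ A)
    · have eo := MulAction.orbit_eq_iff.2 hgo
      have c3 : (MulAction.orbit A (g : G ⧸ A)).toFinset.filter (fun c => ∃ s ∈ S, (s : G ⧸ A) = c)
          = (MulAction.orbit A (g : G ⧸ A)).toFinset.erase g := by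
        ext c
        rw [mem_filter, mem_erase, and_comm]
        refine and_congr_left (fun hc => ⟨fun e e' => hg (e' ▸ e), fun e => ?_⟩)
        exact (full c (eo ▸ Set.mem_toFinset.1 hc)).resolve_left e
      have par := card_parity (S.filter (fun s : G => (s : G ⧸ A) ∈ MulAction.orbit A (g : G ⧸ A)))
        (fun s => s⁻¹) (fun s hs => mem_filter.2 ⟨hS.1 s (mem_filter.1 hs).1,
          eo ▸ flip g s (mem_filter.1 hs).2⟩) (fun s _ => inv_inv s)
      rw [filter_false_of_mem (p := fun a => a⁻¹ = a) (fun s hs e => by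
        obtain ⟨a, ha, b, hb, rfl⟩ := mem_orbit_mk.1 (mem_filter.1 hs).2
        apply noinv (b * a) (A.mul_mem hb ha)
        calc g * (b * a) * (g * (b * a)) = a⁻¹ * (a * g * b * (a * g * b)) * a := by group
          _ = 1 := by nth_rewrite 1 [← e]; group), card_empty, Nat.cast_zero,
        ZMod.natCast_eq_zero_iff_even, cnt, c3, card_erase_of_mem gm] at par
      obtain ⟨a, ha, b, hb, e⟩ := mem_orbit_mk.1 hgo
      have e1 : ((g * a : G) : G ⧸ A) = g := by rw [QuotientGroup.eq]; simpa using ha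
      obtain ⟨a', ha', e'⟩ := h (g * b⁻¹) (by
        have : g * b⁻¹ * (g * b⁻¹) = a * b⁻¹ := by nth_rewrite 1 [e]; group
        rw [this]; exact A.mul_mem ha (A.inv_mem hb)) (by
        have e2 : ((g * b⁻¹ : G) : G ⧸ A) = g := by rw [QuotientGroup.eq]; simpa using hb
        rw [← ncard_orbit, e2, Set.ncard_eq_toFinset_card']
        have := card_pos.2 ⟨_, gm⟩
        obtain ⟨r, hr⟩ := par
        exact ⟨r, by omega⟩)
      exact noinv (b⁻¹ * a') (A.mul_mem (A.inv_mem hb) ha') (by rw [← mul_assoc g b⁻¹ a']; exact e')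
    · rw [cnt, cnt, filter_true_of_mem (s := (MulAction.orbit A ((g⁻¹ : G) : G ⧸ A)).toFinset)
        (fun c hc => (full c (Set.mem_toFinset.1 hc)).resolve_left
          (fun e => hgo (e ▸ Set.mem_toFinset.1 hc))), ← c2] at c1
      exact hg (filter_card_eq c1 _ gm)
  refine ⟨{s | s ∈ S ∧ s ∉ A}, fun e => e.2 A.one_mem, fun s hs =>
    ⟨hS.1 s hs.1, fun e => hs.2 (by simpa using e)⟩, fun g hg => ?_⟩
  obtain ⟨t, ht, e⟩ := cover g
  have e1 := QuotientGroup.eq.1 e
  refine ⟨t⁻¹, ⟨⟨hS.1 t ht, fun e2 => hg ((A.mul_mem_cancel_left e2).1 e1)⟩, e1⟩, fun s hs => ?_⟩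
  have := hS.2 (hS.1 s hs.1.1) ht ((QuotientGroup.eq.2 (by simpa using hs.2)).trans e.symm)
  rw [← this, inv_inv]

/-- it is enough to look at the cosets fixed by one 2-subgroup -/
theorem code_of_two_subgroup [Finite G] (A R : Subgroup G) (hR : R ≤ A) (h2 : IsPGroup 2 R)
    (h : ∀ x, x * x ∈ A → (∀ r ∈ R, x⁻¹ * r * x ∈ A) → ∃ a ∈ A, x * a * (x * a) = 1) : Code A := by
  refine code_of_crit A (fun x hx ho => ?_)
  have : Fact (Nat.Prime 2) := ⟨Nat.prime_two⟩
  have h3 : IsPGroup 2 (R.subgroupOf A) :=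
    h2.of_equiv (Subgroup.subgroupOfEquivOfLe hR).symm
  obtain ⟨q, hq⟩ := h3.nonempty_fixed_point_of_prime_not_dvd_card (A ⧸ (fx A x).subgroupOf A)
    (fun e => (Nat.not_even_iff_odd.2 ho) (even_iff_two_dvd.2 e))
  obtain ⟨w, rfl⟩ := QuotientGroup.mk_surjective q
  obtain ⟨a, ha, e⟩ := h (w * x * (w : G)⁻¹) (by
    have := A.mul_mem (A.mul_mem w.2 hx) (A.inv_mem w.2)
    simpa [mul_assoc] using this) (fun r hr => by
    have e1 : (((⟨r, hR hr⟩ : A) * w : A) : A ⧸ (fx A x).subgroupOf A) = w :=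
      hq ⟨⟨r, hR hr⟩, hr⟩
    have e2 := (mem_fx.1 (Subgroup.mem_subgroupOf.1 (QuotientGroup.eq.1 e1.symm))).2
    have := A.mul_mem (A.mul_mem w.2 e2) (A.inv_mem w.2)
    simpa [mul_assoc] using this)
  refine ⟨(w : G)⁻¹ * a * w, A.mul_mem (A.mul_mem (A.inv_mem w.2) ha) w.2, ?_⟩
  calc x * ((w : G)⁻¹ * a * w) * (x * ((w : G)⁻¹ * a * w))
      = (w : G)⁻¹ * (w * x * (w : G)⁻¹ * a * (w * x * (w : G)⁻¹ * a)) * w := by group
    _ = 1 := by rw [e]; group

/-- the necessary condition, for a subgroup of odd index -/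
theorem Code.invol {A Y : Subgroup G} (h : Code A) (hYA : Y ≤ A) (ho : Odd (Y.relIndex A)) (x : G)
    (hx : ∀ y ∈ Y, x⁻¹ * y * x ∈ Y) (hxx : x * x ∈ Y) : ∃ y ∈ Y, x * y * (x * y) = 1 := by
  by_cases hxA : x ∈ A
  · by_cases hxY : x ∈ Y
    · exact ⟨x⁻¹, Y.inv_mem hxY, by simp⟩
    exfalso
    have hx' : ∀ y ∈ Y, x * y * x⁻¹ ∈ Y := fun y hy => by
      have := Y.mul_mem (Y.mul_mem hxx (hx y hy)) (Y.inv_mem hxx)
      simpa [mul_assoc] using this
    let Z : Subgroup G :=
      { carrier := {g | g ∈ Y ∨ g * x ∈ Y}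
        one_mem' := Or.inl Y.one_mem
        mul_mem' := by
          rintro a b (ha | ha) (hb | hb)
          · exact Or.inl (Y.mul_mem ha hb)
          · exact Or.inr (by simpa [mul_assoc] using Y.mul_mem ha hb)
          · exact Or.inr (by simpa [mul_assoc] using Y.mul_mem ha (hx b hb))
          · refine Or.inl ?_
            have := Y.mul_mem (Y.mul_mem ha (hx _ hb)) (Y.inv_mem hxx)
            simpa [mul_assoc] using this
        inv_mem' := by
          rintro a (ha | ha)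
          · exact Or.inl (Y.inv_mem ha)
          · refine Or.inr ?_
            have := Y.mul_mem (hx' _ (Y.inv_mem ha)) hxx
            simpa [mul_assoc] using this }
    have h2 : Y.relIndex Z = 2 := Subgroup.relIndex_eq_two_iff.2 ⟨x, Or.inr hxx, fun b hb => by
      by_cases e : b ∈ Y
      · exact Or.inr ⟨e, fun e' => hxY ((Y.mul_mem_cancel_left e).1 e')⟩
      · exact Or.inl ⟨hb.resolve_left e, e⟩⟩
    rw [← Subgroup.relIndex_mul_relIndex Y Z A (fun g hg => Or.inl hg) (fun g hg => by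
      rcases hg with e | e
      · exact hYA e
      · exact (A.mul_mem_cancel_right hxA).1 (hYA e)), h2] at ho
    exact (Nat.not_even_iff_odd.2 ho) (even_two_mul _)
  · obtain ⟨S, -, h1, h2⟩ := h
    exact exists_involution A Y hYA ho x hxA hx hxx S h1 h2

end Pool.Agent.Lib.MP_51f8fd_al
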