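import Mathlib

namespace Pool.Agent.Lib.MP_51f8fd_al

variable {K : Type*} [Field K] {p : ℕ} [Fact p.Prime] [CharP K p]

theorem fixed_int {w : K} (h : w ^ p = w) : ∃ n : ℤ, (n : K) = w :=
  (mem_bot_iff_intCast p K).1 ((Subfield.mem_bot_iff_pow_eq_self K p).2 h)

theorem int_fixed (p : ℕ) [Fact p.Prime] [CharP K p] (n : ℤ) : (n : K) ^ p = n :=
  (Subfield.mem_bot_iff_pow_eq_self K p).1 ((mem_bot_iff_intCast p K).2 ⟨n, rfl⟩)

theorem exists_not_fixed [Fintype K] (hq : Fintype.card K = p ^ 2) : ∃ t : K, t ^ p ≠ t := by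
  by_contra h
  push Not at h
  have hs : Function.Surjective (ZMod.castHom (dvd_refl p) K) := by
    intro w
    obtain ⟨n, hn⟩ := fixed_int (h w)
    exact ⟨n, by simpa using hn⟩
  have := Fintype.card_le_of_surjective _ hs
  rw [hq, ZMod.card] at this
  have h2 := (Fact.out : p.Prime).one_lt
  nlinarith

theorem span2 [Fintype K] (hq : Fintype.card K = p ^ 2) {d : K} (hd : d ^ p ≠ d) (z : K) :
    ∃ i j : ℤ, z = i + j * d := by
  let φ := ZMod.castHom (dvd_refl p) K
  have hφ : ∀ a, (φ a) ^ p = φ a := fun a => by rw [← map_pow, ZMod.pow_card]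
  let F : ZMod p × ZMod p → K := fun m => φ m.1 + φ m.2 * d
  have hinj : Function.Injective F := by
    rintro ⟨a, b⟩ ⟨a', b'⟩ h
    simp only [F] at h
    have hb : b = b' := by
      by_contra hb
      apply hd
      have hb' : φ (b - b') ≠ 0 := by
        rw [Ne, map_eq_zero]; exact sub_ne_zero.2 hb
      have : d = φ ((a' - a) / (b - b')) := by
        rw [map_div₀, eq_div_iff hb', map_sub, map_sub]
        linear_combination h
      rw [this, hφ]
    subst hb
    have : φ a = φ a' := by linear_combination h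
    rw [φ.injective this]
  have hbij : Function.Bijective F :=
    (Fintype.bijective_iff_injective_and_card F).2 ⟨hinj, by simp [hq, pow_two]⟩
  obtain ⟨⟨a, b⟩, h⟩ := hbij.2 z
  obtain ⟨i, rfl⟩ := ZMod.intCast_surjective a
  obtain ⟨j, rfl⟩ := ZMod.intCast_surjective b
  exact ⟨i, j, by simpa [F] using h.symm⟩

theorem auto_cases [Fintype K] (hq : Fintype.card K = p ^ 2) (f : K → K)
    (hadd : ∀ x y, f (x + y) = f x + f y) (h1 : f 1 = 1) (hsq : ∀ t, f (t ^ 2) = f t ^ 2) :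
    (∀ t, f t = t) ∨ (∀ t, f t = t ^ p) := by
  let F : K →+ K := AddMonoidHom.mk' f hadd
  have hF : ∀ x, F x = f x := fun _ => rfl
  have hz : ∀ (n : ℤ) (x : K), f (n * x) = n * f x := by
    intro n x
    rw [← hF, ← zsmul_eq_mul, map_zsmul, zsmul_eq_mul, hF]
  have hz1 : ∀ n : ℤ, f n = n := fun n => by simpa [h1] using hz n 1
  have hpp : ∀ t : K, (t ^ p) ^ p = t := fun t => by
    rw [← pow_mul, ← pow_two, ← hq, FiniteField.pow_card]
  obtain ⟨θ, hθ⟩ := exists_not_fixed (K := K) hq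
  obtain ⟨s, hs⟩ := fixed_int (p := p) (w := θ + θ ^ p) (by rw [add_pow_char, hpp, add_comm])
  obtain ⟨n, hn⟩ := fixed_int (p := p) (w := θ * θ ^ p) (by rw [mul_pow, hpp, mul_comm])
  have e : θ ^ 2 = s * θ + ((-n : ℤ) : K) := by
    push_cast; rw [hs, hn]; ring
  have e2 := hsq θ
  rw [e, hadd, hz, hz1] at e2
  push_cast at e2
  rw [hs, hn] at e2
  have e3 : (f θ - θ) * (f θ - θ ^ p) = 0 := by linear_combination -e2
  rcases mul_eq_zero.1 e3 with h | h
  · left
    intro t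
    obtain ⟨i, j, rfl⟩ := span2 hq hθ t
    rw [hadd, hz, hz1, sub_eq_zero.1 h]
  · right
    intro t
    obtain ⟨i, j, rfl⟩ := span2 hq hθ t
    rw [hadd, hz, hz1, sub_eq_zero.1 h, add_pow_char, mul_pow, int_fixed, int_fixed]

theorem digits (hp2 : p ≠ 2) {r : ℕ} (hr : r.Prime) (h : r ∣ p ^ 2 - 1) :
    ∃ α β, 1 ≤ α ∧ 1 ≤ β ∧ α + β < p ∧ r * (α + p * β) = p ^ 2 - 1 := by
  have hp : p.Prime := Fact.out
  obtain ⟨k, rfl⟩ : ∃ k, p = k + 1 := ⟨p - 1, by have := hp.pos; omega⟩
  have hk : 2 ≤ k := by have := hp.two_le; omega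
  have e : (k + 1) ^ 2 - 1 = k * (k + 2) := by
    rw [Nat.sub_eq_iff_eq_add (Nat.one_le_pow _ _ (by omega))]; ring
  rw [e] at h ⊢
  have hke : 2 ∣ k := by
    have := hp.eq_two_or_odd
    omega
  by_cases hrk : r ∣ k
  · obtain ⟨m, rfl⟩ := hrk
    have h2 := hr.two_le
    have hm : 1 ≤ m := by
      rcases m with _ | m
      · simp at hk
      · omega
    refine ⟨m, m, hm, hm, by nlinarith, by ring⟩
  · have hr2 : r ∣ k + 2 := ((hr.dvd_mul).1 h).resolve_left hrk
    obtain ⟨s, hs⟩ := hr2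
    have hr3 : 3 ≤ r := by
      have := hr.two_le
      by_contra h3
      have : r = 2 := by omega
      exact hrk (this ▸ hke)
    have hs2 : 2 ≤ s := by
      rcases s with _ | _ | s
      · simp at hs
      · exfalso
        have : 2 ∣ r := by omega
        have := (Nat.prime_dvd_prime_iff_eq Nat.prime_two hr).1 this
        omega
      · omega
    have hsk : s ≤ k := by nlinarith
    obtain ⟨s', rfl⟩ : ∃ s', s = s' + 1 := ⟨s - 1, by omega⟩
    obtain ⟨a, rfl⟩ : ∃ a, k = a + s' := ⟨k - s', by omega⟩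
    refine ⟨a, s', by omega, by omega, by omega, ?_⟩
    rw [hs]; ring

end Pool.Agent.Lib.MP_51f8fd_al
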