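import Mathlib

namespace Pool.Agent.Lib.MP_51f8fd_al

open Finset Equiv

variable {Ω : Type*} [Fintype Ω] [DecidableEq Ω]

theorem dvd_card_support {l n : ℕ} [Fact l.Prime] {u : Perm Ω} (hu : u ^ l ^ n = 1) :
    l ∣ u.support.card := by
  have h1 := Perm.card_compl_support_modEq hu
  have h2 := Finset.card_add_card_compl u.support
  have h3 : u.supportᶜ.card + u.support.card ≡ u.supportᶜ.card + 0 [MOD l] := by
    rw [add_comm, h2, add_zero]; exact h1.symm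
  exact (Nat.modEq_zero_iff_dvd).1 (Nat.ModEq.add_left_cancel' _ h3)

/-- pointwise stabilizer of three points inside `H` -/
def fix3 (H : Subgroup (Perm Ω)) (a b c : Ω) : Subgroup (Perm Ω) where
  carrier := {h | h ∈ H ∧ h a = a ∧ h b = b ∧ h c = c}
  mul_mem' := by
    rintro x y ⟨hx, x1, x2, x3⟩ ⟨hy, y1, y2, y3⟩
    exact ⟨H.mul_mem hx hy, by simp [*], by simp [*], by simp [*]⟩
  one_mem' := ⟨H.one_mem, rfl, rfl, rfl⟩
  inv_mem' := by
    rintro x ⟨hx, x1, x2, x3⟩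
    exact ⟨H.inv_mem hx, Perm.inv_eq_iff_eq.2 x1.symm, Perm.inv_eq_iff_eq.2 x2.symm,
      Perm.inv_eq_iff_eq.2 x3.symm⟩

omit [Fintype Ω] [DecidableEq Ω] in
theorem mem_fix3 {H : Subgroup (Perm Ω)} {a b c : Ω} {h : Perm Ω} :
    h ∈ fix3 H a b c ↔ h ∈ H ∧ h a = a ∧ h b = b ∧ h c = c := Iff.rfl

theorem jordan3 (H : Subgroup (Perm Ω)) (a b c : Ω) (hab : a ≠ b) (hac : a ≠ c) (hbc : b ≠ c)
    (l : ℕ) (hl : l.Prime) (hl3 : 3 < l) (hcard : Fintype.card Ω = l + 3)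
    (htr : ∀ s t, s ∉ ({a, b, c} : Finset Ω) → t ∉ ({a, b, c} : Finset Ω) →
      ∃ h ∈ fix3 H a b c, h s = t)
    (α β : Perm Ω) (hα : α ∈ H) (hβ : β ∈ H) (α1 : α a = a) (α2 : α b = c) (α3 : α c = b)
    (β1 : β a = b) (β2 : β b = a) (β3 : β c = c) :
    ∃ d ∈ H, d.IsThreeCycle := by
  classical
  have : Fact l.Prime := ⟨hl⟩
  set F : Finset Ω := {a, b, c} with hF
  have hFc : F.card = 3 := by
    rw [hF, Finset.card_eq_three]; exact ⟨a, b, c, hab, hac, hbc, rfl⟩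
  have hFcc : Fᶜ.card = l := by
    rw [Finset.card_compl, hFc, hcard]; simp
  obtain ⟨s0, hs0⟩ : Fᶜ.Nonempty := by
    rw [← Finset.card_pos, hFcc]; exact hl.pos
  have hs0' : s0 ∉ F := Finset.mem_compl.1 hs0
  set K := fix3 H a b c with hK
  have hKsupp : ∀ h ∈ K, (h : Perm Ω).support ⊆ Fᶜ := by
    rintro h ⟨_, h1, h2, h3⟩ x hx
    rw [Finset.mem_compl, hF]
    rw [Perm.mem_support] at hx
    simp only [mem_insert, mem_singleton, not_or]
    refine ⟨?_, ?_, ?_⟩ <;> rintro rfl <;> contradiction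
  have hKF : ∀ h ∈ K, ∀ x, x ∉ F → h x ∉ F := by
    intro h hh x hx
    by_cases hxx : h x = x
    · rwa [hxx]
    · have : h x ∈ h.support := by simpa using hxx
      exact Finset.mem_compl.1 (hKsupp h hh this)
  have hdvd : l ∣ Nat.card K := by
    have h1 : (MulAction.stabilizer K s0).index = l := by
      rw [MulAction.index_stabilizer, ← hFcc, ← Set.ncard_coe_finset]
      congr 1
      ext t
      simp only [MulAction.mem_orbit_iff, Finset.mem_coe, Finset.mem_compl]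
      constructor
      · rintro ⟨h, rfl⟩
        exact hKF h h.2 s0 hs0'
      · intro ht
        obtain ⟨h, hh, e⟩ := htr s0 t hs0' ht
        exact ⟨⟨h, hh⟩, e⟩
    rw [← h1]
    exact Subgroup.index_dvd_card _
  obtain ⟨g, hg⟩ := exists_prime_orderOf_dvd_card' l hdvd
  have hgo : orderOf (g : Perm Ω) = l := by rw [← hg]; exact Subgroup.orderOf_coe g
  have hgc : (g : Perm Ω).IsCycle :=
    Perm.isCycle_of_prime_order' (hgo ▸ hl) (by rw [hgo, hcard]; omega)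
  have hgs : (g : Perm Ω).support = Fᶜ :=
    Finset.eq_of_subset_of_card_le (hKsupp _ g.2) (by rw [← hgc.orderOf, hgo, hFcc])
  have hgm : ∀ x, x ∉ F → (g : Perm Ω) x ≠ x := by
    intro x hx
    rw [← Perm.mem_support, hgs]; exact Finset.mem_compl.2 hx
  have hsmall : ∀ u ∈ K, ∀ n, u ^ l ^ n = 1 → u s0 = s0 → u = 1 := by
    intro u hu n hn h0
    have h1 := dvd_card_support hn
    have h2 : u.support ⊂ Fᶜ := by
      refine ⟨hKsupp u hu, fun h => ?_⟩
      have := h hs0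
      rw [Perm.mem_support] at this
      exact this h0
    have h3 := Finset.card_lt_card h2
    rw [hFcc] at h3
    have h4 := Nat.eq_zero_of_dvd_of_lt h1 h3
    rwa [Finset.card_eq_zero, Perm.support_eq_empty_iff] at h4
  have hpg : ∀ x : K, orderOf x = l → IsPGroup l (Subgroup.zpowers x) := by
    intro x hx
    apply IsPGroup.of_card (n := 1)
    rw [Nat.card_zpowers, hx, pow_one]
  obtain ⟨P, hP⟩ := (hpg g hg).exists_le_sylow
  have hPg : ∀ u ∈ (P : Subgroup K), ∃ i : ℕ, (u : Perm Ω) = (g : Perm Ω) ^ i := by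
    intro u hu
    obtain ⟨i, hi⟩ := hgc.exists_pow_eq (hgm s0 hs0') (hgm _ (hKF u u.2 s0 hs0'))
    have hmem : (g ^ i)⁻¹ * u ∈ (P : Subgroup K) :=
      Subgroup.mul_mem _ (Subgroup.inv_mem _ (Subgroup.pow_mem _ (hP (Subgroup.mem_zpowers g)) i))
        hu
    obtain ⟨n, hn⟩ := P.2 ⟨_, hmem⟩
    have hn' : (((g ^ i)⁻¹ * u : K) : Perm Ω) ^ l ^ n = 1 := by
      have := congrArg (fun x : (P : Subgroup K) => ((x : K) : Perm Ω)) hn
      simpa using this
    have := hsmall _ ((g ^ i)⁻¹ * u : K).2 n hn' (by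
      simp only [Subgroup.coe_mul, Subgroup.coe_inv, Subgroup.coe_pow, Perm.mul_apply]
      rw [← hi]; simp)
    refine ⟨i, ?_⟩
    simp only [Subgroup.coe_mul, Subgroup.coe_inv, Subgroup.coe_pow] at this
    exact (inv_mul_eq_one.1 this).symm
  have hnorm : ∀ γ ∈ H, (∀ x, γ x ∈ F ↔ x ∈ F) →
      ∃ ν ∈ H, ν a = γ a ∧ ν b = γ b ∧ ν c = γ c ∧
        ∃ i : ℕ, ν * g * ν⁻¹ = (g : Perm Ω) ^ i := by
    intro γ hγ hγF
    have hfixF : ∀ h ∈ K, ∀ x ∈ F, h x = x := by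
      rintro h ⟨_, h1, h2, h3⟩ x hx
      simp only [hF, mem_insert, mem_singleton] at hx
      rcases hx with rfl | rfl | rfl <;> assumption
    have hγi : ∀ x ∈ F, γ⁻¹ x ∈ F := by
      intro x hx
      rw [← hγF]; simpa using hx
    have haF : a ∈ F := by simp [hF]
    have hbF : b ∈ F := by simp [hF]
    have hcF : c ∈ F := by simp [hF]
    have hg' : γ * g * γ⁻¹ ∈ K := by
      refine ⟨H.mul_mem (H.mul_mem hγ g.2.1) (H.inv_mem hγ), ?_, ?_, ?_⟩
      · simp only [Perm.mul_apply]; rw [hfixF _ g.2 _ (hγi a haF)]; simp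
      · simp only [Perm.mul_apply]; rw [hfixF _ g.2 _ (hγi b hbF)]; simp
      · simp only [Perm.mul_apply]; rw [hfixF _ g.2 _ (hγi c hcF)]; simp
    have ho : orderOf (⟨_, hg'⟩ : K) = l := by
      rw [← Subgroup.orderOf_coe, ← hgo]
      exact (MulAut.conj γ).orderOf_eq (g : Perm Ω)
    obtain ⟨Q, hQ⟩ := (hpg _ ho).exists_le_sylow
    obtain ⟨k, hk⟩ := MulAction.exists_smul_eq K Q P
    have hm : k * ⟨_, hg'⟩ * k⁻¹ ∈ (P : Subgroup K) := by
      rw [← hk, Sylow.coe_subgroup_smul]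
      exact Subgroup.smul_mem_pointwise_smul _ (MulAut.conj k) _ (hQ (Subgroup.mem_zpowers _))
    obtain ⟨i, hi⟩ := hPg _ hm
    refine ⟨k * γ, H.mul_mem k.2.1 hγ, ?_, ?_, ?_, i, ?_⟩
    · exact hfixF _ k.2 _ ((hγF a).2 haF)
    · exact hfixF _ k.2 _ ((hγF b).2 hbF)
    · exact hfixF _ k.2 _ ((hγF c).2 hcF)
    · rw [← hi]; simp [mul_assoc]
  have hpres : ∀ γ : Perm Ω, γ a ∈ F → γ b ∈ F → γ c ∈ F → ∀ x, γ x ∈ F ↔ x ∈ F := by
    intro γ h1 h2 h3
    have hsub : F.image γ ⊆ F := by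
      intro y hy
      obtain ⟨x, hx, rfl⟩ := Finset.mem_image.1 hy
      simp only [hF, mem_insert, mem_singleton] at hx
      rcases hx with rfl | rfl | rfl <;> assumption
    have heq : F.image γ = F := Finset.eq_of_subset_of_card_le hsub
      (by rw [Finset.card_image_of_injective _ γ.injective])
    intro x
    constructor
    · intro hx
      rw [← heq] at hx
      obtain ⟨y, hy, e⟩ := Finset.mem_image.1 hx
      rwa [← γ.injective e]
    · intro hx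
      rw [← heq]; exact Finset.mem_image_of_mem _ hx
  obtain ⟨n1, hn1, a1, b1, c1, i, hi⟩ :=
    hnorm α hα (hpres α (by simp [hF, α1]) (by simp [hF, α2]) (by simp [hF, α3]))
  obtain ⟨n2, hn2, a2, b2, c2, j, hj⟩ :=
    hnorm β hβ (hpres β (by simp [hF, β1]) (by simp [hF, β2]) (by simp [hF, β3]))
  rw [α1] at a1; rw [α2] at b1; rw [α3] at c1
  rw [β1] at a2; rw [β2] at b2; rw [β3] at c2
  have hcomm : Commute ((n2 * n1)⁻¹ * (n1 * n2)) (g : Perm Ω) := by
    have e1 : n1 * n2 * g * (n1 * n2)⁻¹ = (g : Perm Ω) ^ (i * j) := by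
      calc n1 * n2 * g * (n1 * n2)⁻¹ = n1 * (n2 * g * n2⁻¹) * n1⁻¹ := by simp [mul_assoc]
        _ = (n1 * g * n1⁻¹) ^ j := by rw [hj, conj_pow]
        _ = _ := by rw [hi, pow_mul]
    have e2 : n2 * n1 * g * (n2 * n1)⁻¹ = (g : Perm Ω) ^ (i * j) := by
      calc n2 * n1 * g * (n2 * n1)⁻¹ = n2 * (n1 * g * n1⁻¹) * n2⁻¹ := by simp [mul_assoc]
        _ = (n2 * g * n2⁻¹) ^ i := by rw [hi, conj_pow]
        _ = _ := by rw [hj, mul_comm i j, pow_mul]
    have e3 := e1.trans e2.symm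
    show (n2 * n1)⁻¹ * (n1 * n2) * g = g * ((n2 * n1)⁻¹ * (n1 * n2))
    calc (n2 * n1)⁻¹ * (n1 * n2) * g
        = (n2 * n1)⁻¹ * (n1 * n2 * g * (n1 * n2)⁻¹) * (n1 * n2) := by group
      _ = g * ((n2 * n1)⁻¹ * (n1 * n2)) := by rw [e3]; group
  set w := (n2 * n1)⁻¹ * (n1 * n2) with hw
  have hwH : w ∈ H := H.mul_mem (H.inv_mem (H.mul_mem hn2 hn1)) (H.mul_mem hn1 hn2)
  have wa : w a = b := by
    rw [hw, Perm.mul_apply, Perm.inv_eq_iff_eq]; simp [*]
  have wb : w b = c := by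
    rw [hw, Perm.mul_apply, Perm.inv_eq_iff_eq]; simp [*]
  have wc : w c = a := by
    rw [hw, Perm.mul_apply, Perm.inv_eq_iff_eq]; simp [*]
  have hwF := hpres w (by simp [hF, wa]) (by simp [hF, wb]) (by simp [hF, wc])
  obtain ⟨m, hm⟩ := hgc.exists_pow_eq (hgm s0 hs0') (hgm (w s0) (by rw [hwF]; exact hs0'))
  have hgmK : ((g : Perm Ω) ^ m)⁻¹ ∈ K := K.inv_mem (K.pow_mem g.2 m)
  refine ⟨((g : Perm Ω) ^ m)⁻¹ * w, H.mul_mem hgmK.1 hwH, ?_⟩
  rw [← card_support_eq_three_iff, ← hFc]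
  congr 1
  ext x
  rw [Perm.mem_support]
  constructor
  · intro hx
    by_contra hxF
    apply hx
    obtain ⟨r, hr⟩ := hgc.exists_pow_eq (hgm s0 hs0') (hgm x hxF)
    have hc2 : Commute (((g : Perm Ω) ^ m)⁻¹ * w) ((g : Perm Ω) ^ r) :=
      Commute.mul_left (Commute.inv_left ((Commute.refl _).pow_pow m r)) (hcomm.pow_right r)
    have h0 : (((g : Perm Ω) ^ m)⁻¹ * w) s0 = s0 := by
      rw [Perm.mul_apply, ← hm]; simp
    rw [← hr, ← Perm.mul_apply, hc2.eq, Perm.mul_apply, h0]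
  · intro hx
    simp only [hF, mem_insert, mem_singleton] at hx
    obtain ⟨_, k1, k2, k3⟩ := hgmK
    rcases hx with rfl | rfl | rfl
    · rw [Perm.mul_apply, wa, k2]; exact hab.symm
    · rw [Perm.mul_apply, wb, k3]; exact hbc.symm
    · rw [Perm.mul_apply, wc, k1]; exact hac

end Pool.Agent.Lib.MP_51f8fd_al
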