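import Mathlib

namespace Pool.Agent.Lib.MP_51f8fd_al

open Finset

theorem card_parity {α : Type*} [DecidableEq α] (s : Finset α) (φ : α → α)
    (hs : ∀ a ∈ s, φ a ∈ s) (hφ : ∀ a ∈ s, φ (φ a) = a) :
    (s.card : ZMod 2) = ((s.filter fun a => φ a = a).card : ZMod 2) := by
  have h1 := Finset.card_filter_add_card_filter_not (s := s) (fun a => φ a = a)
  have h2 : ∑ _a ∈ s.filter (fun a => ¬ φ a = a), (1 : ZMod 2) = 0 := by
    apply Finset.sum_involution (fun a _ => φ a)
    · intro a _; decide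
    · intro a ha _
      exact (Finset.mem_filter.1 ha).2
    · intro a ha
      obtain ⟨ha1, ha2⟩ := Finset.mem_filter.1 ha
      refine Finset.mem_filter.2 ⟨hs a ha1, ?_⟩
      rw [hφ a ha1]
      exact fun h => ha2 h.symm
    · intro a ha
      exact hφ a (Finset.mem_filter.1 ha).1
  rw [Finset.sum_const, nsmul_eq_mul, mul_one] at h2
  rw [← h1, Nat.cast_add, h2, add_zero]

variable {C : Type*} [CommGroup C]

/-- invariance of a set under the stabilizer of `1` -/
def Inv1 (Δ : Subgroup (Equiv.Perm C)) (U : Set C) : Prop :=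
  ∀ σ ∈ Δ, σ 1 = 1 → ∀ u ∈ U, σ u ∈ U

theorem Inv1.rel {Δ : Subgroup (Equiv.Perm C)} (hL : ∀ c, Equiv.mulLeft c ∈ Δ) {U : Set C}
    (hU : Inv1 Δ U) {σ : Equiv.Perm C} (hσ : σ ∈ Δ) (a u : C) (hu : u ∈ U) :
    (σ a)⁻¹ * σ (a * u) ∈ U := by
  have h := hU (Equiv.mulLeft (σ a)⁻¹ * σ * Equiv.mulLeft a)
    (Δ.mul_mem (Δ.mul_mem (hL _) hσ) (hL _)) (by simp) u hu
  simpa using h

theorem Inv1.iff {Δ : Subgroup (Equiv.Perm C)} (hL : ∀ c, Equiv.mulLeft c ∈ Δ) {U : Set C}
    (hU : Inv1 Δ U) {σ : Equiv.Perm C} (hσ : σ ∈ Δ) (a b : C) :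
    (σ a)⁻¹ * σ b ∈ U ↔ a⁻¹ * b ∈ U := by
  constructor
  · intro h
    have := hU.rel hL (Δ.inv_mem hσ) (σ a) _ h
    simpa using this
  · intro h
    have := hU.rel hL hσ a _ h
    simpa using this

theorem Inv1.closure {Δ : Subgroup (Equiv.Perm C)} (hL : ∀ c, Equiv.mulLeft c ∈ Δ) {U : Set C}
    (hU : Inv1 Δ U) : Inv1 Δ (Subgroup.closure U) := by
  have key : ∀ d ∈ Subgroup.closure U, ∀ σ ∈ Δ, ∀ a, (σ a)⁻¹ * σ (a * d) ∈ Subgroup.closure U := by
    intro d hd
    induction hd using Subgroup.closure_induction with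
    | mem x hx => exact fun σ hσ a => Subgroup.subset_closure (hU.rel hL hσ a x hx)
    | one => intro σ _ a; simp
    | mul x y _ _ hx hy =>
      intro σ hσ a
      have := Subgroup.mul_mem _ (hx σ hσ a) (hy σ hσ (a * x))
      simpa [mul_assoc] using this
    | inv x _ hx =>
      intro σ hσ a
      have := Subgroup.inv_mem _ (hx σ hσ (a * x⁻¹))
      simpa [mul_assoc, mul_comm] using this
  intro σ hσ h1 u hu
  have := key u hu σ hσ 1
  simpa [h1] using this

theorem schur [Finite C] (z : C) (hz1 : z ≠ 1) (hz2 : z * z = 1)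
    (hz : ∀ w : C, w * w = 1 → w = 1 ∨ w = z)
    (Δ : Subgroup (Equiv.Perm C)) (hL : ∀ c, Equiv.mulLeft c ∈ Δ)
    (hprim : ∀ D : Subgroup C, Inv1 Δ D → D = ⊥ ∨ D = ⊤) (t : C) (ht : t ≠ 1) :
    ∃ σ ∈ Δ, σ 1 = 1 ∧ σ t = z := by
  classical
  have := Fintype.ofFinite C
  set T : Set C := {s | ∃ σ ∈ Δ, σ 1 = 1 ∧ σ t = s} with hT
  by_contra hzT
  have hzT' : z ∉ T := hzT
  have hTinv : Inv1 Δ T := by
    rintro σ hσ h1 u ⟨τ, hτ, hτ1, rfl⟩
    exact ⟨σ * τ, Δ.mul_mem hσ hτ, by simp [hτ1, h1], rfl⟩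
  have h1T : (1 : C) ∉ T := by
    rintro ⟨τ, _, hτ1, h⟩
    exact ht (τ.injective (h.trans hτ1.symm))
  have htT : t ∈ T := ⟨1, Δ.one_mem, rfl, rfl⟩
  let cnt : C → Finset C := fun g => univ.filter fun s => s ∈ T ∧ s⁻¹ * g ∈ T
  have hcnt : ∀ σ ∈ Δ, σ 1 = 1 → ∀ g, (cnt (σ g)).card = (cnt g).card := by
    intro σ hσ h1 g
    symm
    apply Finset.card_bij (fun s _ => σ s)
    · intro s hs
      simp only [cnt, mem_filter, mem_univ, true_and] at hs ⊢
      exact ⟨hTinv σ hσ h1 s hs.1, (hTinv.iff hL hσ s g).2 hs.2⟩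
    · intro a _ b _ h; exact σ.injective h
    · intro b hb
      refine ⟨σ.symm b, ?_, by simp⟩
      simp only [cnt, mem_filter, mem_univ, true_and] at hb ⊢
      constructor
      · have := (hTinv.iff hL hσ 1 (σ.symm b)).1 (by simpa [h1] using hb.1)
        simpa using this
      · exact (hTinv.iff hL hσ (σ.symm b) g).1 (by simpa using hb.2)
  let T2 : Set C := {g | ((cnt g).card : ZMod 2) ≠ 0}
  have hT2 : Inv1 Δ T2 := by
    intro σ hσ h1 u hu
    simp only [T2, Set.mem_ofPred_eq] at hu ⊢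
    rwa [hcnt σ hσ h1]
  have hpar : ∀ g, ((cnt g).card : ZMod 2) =
      (((cnt g).filter fun s => s⁻¹ * g = s).card : ZMod 2) := by
    intro g
    apply card_parity (cnt g) (fun s => s⁻¹ * g)
    · intro s hs
      simp only [cnt, mem_filter, mem_univ, true_and] at hs ⊢
      refine ⟨hs.2, ?_⟩
      simpa [mul_comm] using hs.1
    · intro s _; simp [mul_comm]
  have hsq : Subgroup.closure T2 ≤ (powMonoidHom 2 : C →* C).range := by
    rw [Subgroup.closure_le]
    intro g hg
    simp only [T2, Set.mem_ofPred_eq, hpar g] at hg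
    have hne : ((cnt g).filter fun s => s⁻¹ * g = s).Nonempty := by
      rw [Finset.nonempty_iff_ne_empty]
      intro h; rw [h] at hg; simp at hg
    obtain ⟨s, hs⟩ := hne
    have h2 := (mem_filter.1 hs).2
    refine ⟨s, ?_⟩
    simp only [powMonoidHom_apply]
    rw [pow_two]
    nth_rewrite 2 [← h2]
    simp
  have hrange : (powMonoidHom 2 : C →* C).range ≠ ⊤ := by
    intro h
    have hsurj : Function.Surjective (powMonoidHom 2 : C →* C) := MonoidHom.range_eq_top.1 h
    have hinj := Finite.injective_iff_surjective.2 hsurj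
    apply hz1
    apply hinj
    simp [pow_two, hz2]
  have hbot : Subgroup.closure T2 = ⊥ := by
    rcases hprim _ (hT2.closure hL) with h | h
    · exact h
    · exact absurd (top_le_iff.1 (h ▸ hsq)) hrange
  have hzs : ∀ s ∈ T, z * s ∈ T := by
    intro s hs
    by_contra hzs
    have hmem : s * s ∈ T2 := by
      simp only [T2, Set.mem_ofPred_eq, hpar]
      have : ((cnt (s * s)).filter fun s' => s'⁻¹ * (s * s) = s') = {s} := by
        ext s'
        simp only [cnt, mem_filter, mem_univ, true_and, mem_singleton]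
        constructor
        · rintro ⟨⟨h1, _⟩, h3⟩
          have h4 : (s' * s⁻¹) * (s' * s⁻¹) = 1 := by
            have : s' * s' = s * s := by
              nth_rewrite 2 [← h3]; simp
            calc (s' * s⁻¹) * (s' * s⁻¹) = (s' * s') * (s * s)⁻¹ := by
                  simp only [mul_inv_rev]; ac_rfl
              _ = 1 := by rw [this]; simp
          rcases hz _ h4 with h | h
          · exact mul_inv_eq_one.1 h
          · exfalso; apply hzs
            rw [← h]; simpa using h1
        · rintro rfl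
          simpa using hs
      rw [this]; simp
    have : s * s ∈ Subgroup.closure T2 := Subgroup.subset_closure hmem
    rw [hbot, Subgroup.mem_bot] at this
    rcases hz s this with h | h
    · exact h1T (h ▸ hs)
    · exact hzT' (h ▸ hs)
  let R : Subgroup C :=
    { carrier := {g | ∀ s, g⁻¹ * s ∈ T ↔ s ∈ T}
      mul_mem' := by
        intro a b ha hb s
        have := (hb (a⁻¹ * s)).trans (ha s)
        simpa [mul_assoc] using this
      one_mem' := by intro s; simp
      inv_mem' := by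
        intro a ha s
        have := (ha (a * s)).symm
        simpa using this }
  have hR : Inv1 Δ R := by
    intro σ hσ h1 g hg s
    obtain ⟨b, rfl⟩ := σ.surjective s
    rw [hTinv.iff hL hσ g b, hg b]
    have := hTinv.iff hL hσ 1 b
    simpa [h1] using this.symm
  have hzinv : z⁻¹ = z := inv_eq_of_mul_eq_one_right hz2
  have hzR : z ∈ R := by
    intro s
    rw [hzinv]
    refine ⟨fun h => ?_, hzs s⟩
    have := hzs _ h
    rwa [← mul_assoc, hz2, one_mul] at this
  rcases hprim R hR with h | h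
  · rw [h, Subgroup.mem_bot] at hzR
    exact hz1 hzR
  · have : t ∈ R := h ▸ Subgroup.mem_top t
    have := (this t).2 htT
    exact h1T (by simpa using this)

end Pool.Agent.Lib.MP_51f8fd_al
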