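import Pool.Agent.Lib.MP_51f8fd_al.PG
import Pool.Agent.Lib.MP_51f8fd_al.Affine
import Pool.Agent.Lib.MP_51f8fd_al.Schur
import Pool.Agent.Lib.MP_51f8fd_al.Jordan3

namespace Pool.Agent.Lib.MP_51f8fd_al

open Equiv

variable {K : Type*} [Field K]

theorem hua (f g : K → K) (hf : ∀ x y, f (x + y) = f x + f y) (hg : ∀ x y, g (x + y) = g x + g y)
    (hfi : Function.Injective f) (f1 : f 1 = 1) (hfg : ∀ t, g t = (f t⁻¹)⁻¹) (t : K) :
    f (t ^ 2) = f t ^ 2 := by
  have f0 : f 0 = 0 := by simpa using hf 0 0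
  by_cases h0 : t = 0
  · simp [h0, f0]
  by_cases h1 : t + 1 = 0
  · have e : t = -1 := eq_neg_of_add_eq_zero_left h1
    have e2 : f (-1) = -1 := by
      have := hf (-1) 1
      rw [neg_add_cancel, f0, f1] at this
      exact eq_neg_of_add_eq_zero_left this.symm
    simp [e, e2, f1]
  have a0 : f t ≠ 0 := fun h => h0 (hfi (h.trans f0.symm))
  have a1 : f t + 1 ≠ 0 := fun h => h1 (hfi (by rw [hf, f1, h, f0]))
  have e := hg (t ^ 2 + t)⁻¹ (t + 1)⁻¹
  have e2 : (t ^ 2 + t)⁻¹ + (t + 1)⁻¹ = t⁻¹ := by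
    rw [show t ^ 2 + t = t * (t + 1) by ring]
    field_simp; ring
  rw [e2, hfg, hfg, hfg, inv_inv, inv_inv, inv_inv, hf, hf, f1] at e
  have e3 : (f (t ^ 2) + f t)⁻¹ = (f t * (f t + 1))⁻¹ := by
    rw [← sub_eq_iff_eq_add] at e
    rw [← e]; field_simp; ring
  have := inv_injective e3
  linear_combination this

/-- restriction to the units of permutations fixing zero -/
def resU (Γ : Subgroup (Perm K)) : Subgroup (Perm Kˣ) where
  carrier := {σ | ∃ f ∈ Γ, f 0 = 0 ∧ ∀ u : Kˣ, f u = σ u}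
  mul_mem' := by
    rintro σ τ ⟨f, hf, f0, h⟩ ⟨g, hg, g0, h'⟩
    exact ⟨f * g, Γ.mul_mem hf hg, by simp [f0, g0], fun u => by simp [h', h]⟩
  one_mem' := ⟨1, Γ.one_mem, rfl, fun _ => rfl⟩
  inv_mem' := by
    rintro σ ⟨f, hf, f0, h⟩
    refine ⟨f⁻¹, Γ.inv_mem hf, Perm.inv_eq_iff_eq.2 f0.symm, fun u => ?_⟩
    rw [Perm.inv_eq_iff_eq, h]; simp

theorem exists_resU {Γ : Subgroup (Perm K)} {f : Perm K} (hf : f ∈ Γ) (f0 : f 0 = 0) :
    ∃ σ ∈ resU Γ, ∀ u : Kˣ, f u = σ u := by
  have h1 : ∀ u : Kˣ, f u ≠ 0 := fun u h => u.ne_zero (f.injective (h.trans f0.symm))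
  have h2 : ∀ u : Kˣ, f.symm u ≠ 0 := fun u h => u.ne_zero (by
    rw [symm_apply_eq, f0] at h; exact h)
  let σ : Perm Kˣ :=
    { toFun := fun u => Units.mk0 _ (h1 u)
      invFun := fun u => Units.mk0 _ (h2 u)
      left_inv := fun u => by ext; simp
      right_inv := fun u => by ext; simp }
  exact ⟨σ, ⟨f, hf, f0, fun _ => rfl⟩, fun _ => rfl⟩

variable [Fintype K] {p : ℕ} [Fact p.Prime] [CharP K p]

omit [CharP K p] in
theorem top_of_trans (hq : Fintype.card K = p ^ 2) (hp2 : p ≠ 2) (hl : (p ^ 2 - 2).Prime)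
    (H : Subgroup (Perm (Option K))) (hH : PG hq ≤ H)
    (htr : ∀ t : K, t ≠ 0 → t ≠ 1 → ∃ f : Perm K, ext f ∈ H ∧ f 0 = 0 ∧ f 1 = 1 ∧ f t = -1) :
    H = ⊤ := by
  classical
  have hp : p.Prime := Fact.out
  have hp3 : 3 ≤ p := by have := hp.two_le; omega
  have hp9 : 9 ≤ p ^ 2 := by nlinarith
  obtain ⟨d, hd, hd3⟩ := jordan3 H none (some 0) (some 1) (by simp) (by simp) (by simp)
    (p ^ 2 - 2) hl (by omega) (by rw [Fintype.card_option, hq]; omega) (by
      intro s t hs ht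
      rcases s with _ | s
      · simp at hs
      rcases t with _ | t
      · simp at ht
      simp only [Finset.mem_insert, Finset.mem_singleton, Option.some.injEq, not_or,
        reduceCtorEq, not_false_eq_true, true_and] at hs ht
      obtain ⟨f, hf, f0, f1, fs⟩ := htr s hs.1 hs.2
      obtain ⟨g, hg, g0, g1, gt⟩ := htr t ht.1 ht.2
      refine ⟨(ext g)⁻¹ * ext f, Subgroup.mul_mem _ (Subgroup.inv_mem _ ⟨hg, rfl, by simp [g0],
        by simp [g1]⟩) ⟨hf, rfl, by simp [f0], by simp [f1]⟩, ?_⟩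
      rw [Perm.mul_apply, Perm.inv_eq_iff_eq]; simp [fs, gt])
    (ext (Equiv.addRight 1) * ext (Equiv.mulLeft₀ (-1) (by simp))) iv
    (hH (Subgroup.mul_mem _ (tr_mem hq _) (sc_mem hq _ _))) (hH (iv_mem hq))
    (by simp) (by simp) (by simp) (by simp) (by simp) (by rw [iv_some one_ne_zero, inv_one])
  have h2 : MulAction.IsMultiplyPretransitive H (Option K) 2 := by
    rw [MulAction.is_two_pretransitive_iff]
    have hex : ∀ a b : Option K, ∃ z, a ≠ z ∧ b ≠ z := by
      intro a b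
      have : ({a, b} : Finset (Option K)).card < (Finset.univ : Finset (Option K)).card := by
        have := Finset.card_le_two (a := a) (b := b)
        rw [Finset.card_univ, Fintype.card_option, hq]; omega
      obtain ⟨z, _, hz⟩ := Finset.exists_mem_notMem_of_card_lt_card this
      simp only [Finset.mem_insert, Finset.mem_singleton, not_or] at hz
      exact ⟨z, Ne.symm hz.1, Ne.symm hz.2⟩
    intro a b c d hab hcd
    obtain ⟨z, z1, z2⟩ := hex a b
    obtain ⟨w, w1, w2⟩ := hex c d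
    obtain ⟨f, hf, f1, f2, _⟩ := PG_trans hq a b z hab z1 z2
    obtain ⟨g, hg, g1, g2, _⟩ := PG_trans hq c d w hcd w1 w2
    refine ⟨⟨g⁻¹ * f, H.mul_mem (H.inv_mem (hH hg)) (hH hf)⟩, ?_, ?_⟩
    · show (g⁻¹ * f) a = c
      rw [Perm.mul_apply, Perm.inv_eq_iff_eq, f1, g1]
    · show (g⁻¹ * f) b = d
      rw [Perm.mul_apply, Perm.inv_eq_iff_eq, f2, g2]
  have halt := Perm.alternatingGroup_le_of_isPreprimitive_of_isThreeCycle_mem
    (MulAction.isPreprimitive_of_is_two_pretransitive h2) hd3 hd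
  obtain ⟨ω, hω⟩ := IsCyclic.exists_generator (α := Kˣ)
  have hω1 : (ω : K) ≠ 1 := by
    intro h
    have h' : ω = 1 := Units.ext h
    have h3 := orderOf_eq_card_of_forall_mem_zpowers hω
    rw [h', orderOf_one, Nat.card_units, Nat.card_eq_fintype_card, hq] at h3
    omega
  let m : Perm K := Equiv.mulLeft₀ (ω : K) ω.ne_zero
  have hmpow : ∀ n : ℕ, ∀ t, (m ^ n) t = (ω : K) ^ n * t := by
    intro n
    induction n with
    | zero => simp
    | succ n ih => intro t; rw [pow_succ', Perm.mul_apply, ih, pow_succ', mul_assoc]; rfl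
  have hmne : ∀ t, m t ≠ t ↔ t ≠ 0 := by
    intro t
    show (ω : K) * t ≠ t ↔ t ≠ 0
    rw [Ne, mul_left_eq_self₀]; simp [hω1]
  have hcyc : m.IsCycle := by
    refine ⟨1, (hmne 1).2 one_ne_zero, fun y hy => ?_⟩
    obtain ⟨n, hn⟩ := (mem_powers_iff_mem_zpowers.2 (hω (Units.mk0 y ((hmne y).1 hy))))
    refine ⟨n, ?_⟩
    rw [zpow_natCast, hmpow, mul_one]
    simpa using congrArg Units.val hn
  have hsupp : m.support = Finset.univ.erase 0 := by
    ext t; simp [Perm.mem_support, hmne]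
  have hsign : Perm.sign (ext m) = -1 := by
    have : Perm.sign (ext m) = Perm.sign m := Equiv.optionCongr_sign m
    rw [this, hcyc.sign, hsupp, Finset.card_erase_of_mem (Finset.mem_univ _), Finset.card_univ, hq,
      Even.neg_one_pow]
    have := (hp.odd_of_ne_two hp2).pow (n := 2)
    exact Nat.Odd.sub_odd this odd_one
  rw [eq_top_iff]
  intro σ _
  rcases Int.units_eq_one_or (Perm.sign σ) with h | h
  · exact halt (Perm.mem_alternatingGroup.2 h)
  · have h1 : σ * (ext m)⁻¹ ∈ H := halt (Perm.mem_alternatingGroup.2 (by simp [h, hsign]))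
    have := H.mul_mem h1 (hH (sc_mem hq _ ω.ne_zero))
    simpa [m] using this

theorem le_of_additive (hq : Fintype.card K = p ^ 2)
    (H : Subgroup (Perm (Option K))) (hH : PG hq ≤ H)
    (hadd : ∀ f : Perm K, ext f ∈ H → f 0 = 0 → ∀ x y, f (x + y) = f x + f y) :
    H ≤ PG hq := by
  intro h hh
  obtain ⟨a, ha, a1, a2, a3⟩ := PG_trans hq (h none) (h (some 0)) (h (some 1))
    (h.injective.ne (by simp)) (h.injective.ne (by simp)) (h.injective.ne (by simp))
  obtain ⟨f, hf⟩ := exists_ext (a * h) a1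
  have hfH : ext f ∈ H := hf ▸ H.mul_mem (hH ha) hh
  have f0 : f 0 = 0 := by
    have := congrArg (fun σ : Perm (Option K) => σ (some 0)) hf
    simpa [a2] using this
  have f1 : f 1 = 1 := by
    have := congrArg (fun σ : Perm (Option K) => σ (some 1)) hf
    simpa [a3] using this
  obtain ⟨g, hg⟩ := exists_ext (iv * ext f * iv) (by simp [f0])
  have hgH : ext g ∈ H := hg ▸ H.mul_mem (H.mul_mem (hH (iv_mem hq)) hfH) (hH (iv_mem hq))
  have hfg : ∀ t, g t = (f t⁻¹)⁻¹ := by
    intro t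
    have := congrArg (fun σ : Perm (Option K) => σ (some t)) hg
    by_cases ht : t = 0
    · simpa [ht, f0] using this
    · have h2 : f t⁻¹ ≠ 0 := fun e => inv_ne_zero ht (f.injective (e.trans f0.symm))
      simpa [iv_some ht, iv_some h2] using this
  have g0 : g 0 = 0 := by simp [hfg, f0]
  have hmem : ext f ∈ PG hq := by
    rcases auto_cases hq f (hadd f hfH f0) f1
      (hua f g (hadd f hfH f0) (hadd g hgH g0) f.injective f1 hfg) with e | e
    · have : f = 1 := Equiv.ext e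
      rw [this, map_one]; exact Subgroup.one_mem _
    · exact frob_mem hq f e
  rw [hf] at hmem
  exact ((PG hq).mul_mem_cancel_left ha).1 hmem

theorem PG_maximal (hq : Fintype.card K = p ^ 2) (hp2 : p ≠ 2) (hl : (p ^ 2 - 2).Prime)
    (H : Subgroup (Perm (Option K))) (hH : PG hq ≤ H) : H ≤ PG hq ∨ H = ⊤ := by
  classical
  let Γ : Subgroup (Perm K) := H.comap ext
  have hT : ∀ c : K, Equiv.addRight c ∈ Γ := fun c => hH (tr_mem hq c)
  have hS : ∀ (c : K) (hc : c ≠ 0), Equiv.mulLeft₀ c hc ∈ Γ := fun c hc => hH (sc_mem hq c hc)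
  by_cases hprim : ∀ D : Subgroup Kˣ, Inv1 (resU Γ) D → D = ⊥ ∨ D = ⊤
  · right
    apply top_of_trans hq hp2 hl H hH
    intro t h0 h1
    have hne : (-1 : Kˣ) ≠ 1 := by
      intro h
      have h2 : (-1 : K) = 1 := by simpa using congrArg Units.val h
      have : Fact (2 < p) := ⟨by have := (Fact.out : p.Prime).two_le; omega⟩
      exact CharP.neg_one_ne_one K p h2
    obtain ⟨σ, ⟨f, hf, f0, hfσ⟩, s1, st⟩ := schur (-1 : Kˣ) hne (by simp) (by
      intro w hw
      have : (w : K) * w = 1 := by simpa using congrArg Units.val hw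
      rcases mul_self_eq_one_iff.1 this with h | h
      · left; ext; simpa using h
      · right; ext; simpa using h) (resU Γ)
      (fun c => ⟨_, hS c c.ne_zero, by simp, fun u => by simp⟩) hprim (Units.mk0 t h0)
      (fun h => h1 (by simpa using congrArg Units.val h))
    refine ⟨f, hf, f0, ?_, ?_⟩
    · simpa [s1] using hfσ 1
    · simpa [st] using hfσ (Units.mk0 t h0)
  · left
    push Not at hprim
    obtain ⟨D, hD, hD1, hD2⟩ := hprim
    apply le_of_additive hq H hH
    intro f hf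
    refine additive_of_block hq hp2 hT hS D hD1 hD2 ?_ f hf
    rintro g hg g0 g1 _ ⟨d, hd, rfl⟩
    obtain ⟨σ, hσ, e⟩ := exists_resU hg g0
    refine ⟨σ d, hD σ hσ ?_ d hd, (e d).symm⟩
    ext
    rw [← e]; simpa using g1

end Pool.Agent.Lib.MP_51f8fd_al
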