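import Pool.Agent.Lib.MP_51f8fd_al.Maximal
import Pool.Agent.Lib.MP_51f8fd_al.Code

namespace Pool.Agent.Lib.MP_51f8fd_al

open Equiv
open scoped Pointwise

variable {K : Type*} [Field K] [Fintype K] {p : ℕ} [Fact p.Prime] [CharP K p]

omit [CharP K p] in
theorem odd_relIndex [DecidableEq K] (hq : Fintype.card K = p ^ 2) (hp2 : p ≠ 2) :
    Odd ((MulAction.stabilizer (Perm (Option K)) ({none, some 0} : Finset (Option K)) ⊓
      PG hq).relIndex (PG hq)) := by
  rw [Subgroup.inf_relIndex_right]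
  have h1 : (MulAction.stabilizer (Perm (Option K))
      ({none, some 0} : Finset (Option K))).subgroupOf (PG hq) =
      MulAction.stabilizer (PG hq) ({none, some 0} : Finset (Option K)) := by
    ext g; rfl
  rw [Subgroup.relIndex, h1, MulAction.index_stabilizer]
  have h2 : MulAction.orbit (PG hq) ({none, some 0} : Finset (Option K)) =
      ((Finset.univ : Finset (Option K)).powersetCard 2 : Finset (Finset (Option K))) := by
    ext s
    simp only [MulAction.mem_orbit_iff, Finset.mem_coe, Finset.mem_powersetCard,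
      Finset.subset_univ, true_and]
    constructor
    · rintro ⟨g, rfl⟩
      rw [Finset.card_smul_finset]; simp
    · intro hs
      obtain ⟨a, b, hab, rfl⟩ := Finset.card_eq_two.1 hs
      have hp9 : 4 ≤ p ^ 2 := by
        have := (Fact.out : p.Prime).two_le; nlinarith
      have : ({a, b} : Finset (Option K)).card < (Finset.univ : Finset (Option K)).card := by
        rw [hs, Finset.card_univ, Fintype.card_option, hq]; omega
      obtain ⟨z, _, hz⟩ := Finset.exists_mem_notMem_of_card_lt_card this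
      simp only [Finset.mem_insert, Finset.mem_singleton, not_or] at hz
      obtain ⟨f, hf, f1, f2, _⟩ := PG_trans hq a b z hab (Ne.symm hz.1) (Ne.symm hz.2)
      refine ⟨⟨f⁻¹, Subgroup.inv_mem _ hf⟩, ?_⟩
      show f⁻¹ • ({none, some 0} : Finset (Option K)) = {a, b}
      rw [← f2, ← f1, Finset.smul_finset_insert, Finset.smul_finset_singleton]
      simp
  rw [h2, Set.ncard_coe_finset, Finset.card_powersetCard, Finset.card_univ, Fintype.card_option,
    hq, Nat.choose_two_right]
  obtain ⟨k, hk⟩ := (Fact.out : p.Prime).odd_of_ne_two hp2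
  have : (p ^ 2 + 1) * (p ^ 2 + 1 - 1) = 2 * ((2 * (k ^ 2 + k) + 1) * p ^ 2) := by
    rw [Nat.add_sub_cancel, hk]; ring
  rw [this, Nat.mul_div_cancel_left _ two_pos]
  exact (odd_two_mul_add_one _).mul (Odd.pow ⟨k, hk⟩)

omit [Fact p.Prime] [CharP K p] in
theorem stab_zero (hq : Fintype.card K = p ^ 2) {y : Perm (Option K)} (hy : y ∈ PG hq)
    (h1 : y none = none) (h2 : y (some 0) = some 0) :
    ∃ (f : Perm K) (c : K), c ≠ 0 ∧ ext f = y ∧
      ((∀ t, f t = c * t) ∨ (∀ t, f t = c * t ^ p)) := by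
  obtain ⟨f, rfl⟩ := exists_ext y h1
  have f0 : f 0 = 0 := by simpa using h2
  have hc : f 1 ≠ 0 := fun h => one_ne_zero (f.injective (h.trans f0.symm))
  refine ⟨f, f 1, hc, rfl, ?_⟩
  have := PG_fix hq (f := Equiv.mulLeft₀ _ (inv_ne_zero hc) * f)
    (by rw [map_mul]; exact Subgroup.mul_mem _ (sc_mem hq _ _) hy) (by simp [f0]) (by simp [hc])
  rcases this with h | h
  · left; intro t
    have := h t
    simp only [Perm.mul_apply, Equiv.mulLeft₀_apply] at this
    exact (inv_mul_eq_iff_eq_mul₀ hc).1 this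
  · right; intro t
    have := h t
    simp only [Perm.mul_apply, Equiv.mulLeft₀_apply] at this
    rw [← this]; field_simp

theorem PG_not_code (hq : Fintype.card K = p ^ 2) (hp2 : p ≠ 2) (J : ℕ)
    (hJ : ∀ t : K, (t ^ J) ^ J = t ^ p) (S : Set (Perm (Option K))) (hS : ∀ s ∈ S, s⁻¹ ∈ S)
    (huniq : ∀ g, g ∉ PG hq → ∃! s, s ∈ S ∧ s * g ∈ PG hq) : False := by
  classical
  have hp : p.Prime := Fact.out
  have hpp : ∀ t : K, (t ^ p) ^ p = t := pow_sq_eq hq
  have hJ0 : J ≠ 0 := by
    rintro rfl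
    have := hJ 0
    simp [hp.ne_zero] at this
  let x : Perm K :=
    { toFun := fun t => t ^ J
      invFun := fun t => (t ^ J) ^ p
      left_inv := fun t => by simp only [hJ, hpp]
      right_inv := fun t => by
        show ((t ^ J) ^ p) ^ J = t
        rw [pow_right_comm, hJ, hpp] }
  have hx : ∀ t, x t = t ^ J := fun _ => rfl
  have hxi : ∀ t, x⁻¹ t = (t ^ J) ^ p := fun _ => rfl
  have x0 : x 0 = 0 := by simp [hx, hJ0]
  set Y := MulAction.stabilizer (Perm (Option K)) ({none, some 0} : Finset (Option K)) ⊓ PG hq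
    with hY
  have hstab : ∀ σ : Perm (Option K),
      σ ∈ MulAction.stabilizer (Perm (Option K)) ({none, some 0} : Finset (Option K)) ↔
        (σ none = none ∧ σ (some 0) = some 0) ∨ (σ none = some 0 ∧ σ (some 0) = none) := by
    intro σ
    rw [MulAction.mem_stabilizer_iff, Finset.smul_finset_insert, Finset.smul_finset_singleton,
      ← Finset.coe_inj, Finset.coe_pair, Finset.coe_pair, Set.pair_eq_pair_iff]
    rfl
  have hX : ext x ∈ MulAction.stabilizer (Perm (Option K))
      ({none, some 0} : Finset (Option K)) := (hstab _).2 (Or.inl ⟨rfl, by simp [x0]⟩)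
  have hconj0 : ∀ y ∈ PG hq, y none = none → y (some 0) = some 0 →
      (ext x)⁻¹ * y * ext x ∈ PG hq := by
    intro y hy h1 h2
    obtain ⟨f, c, hc, rfl, h⟩ := stab_zero hq hy h1 h2
    rw [← map_inv, ← map_mul, ← map_mul]
    have hc' : (c ^ J) ^ p ≠ 0 := pow_ne_zero _ (pow_ne_zero _ hc)
    rcases h with h | h
    · have : x⁻¹ * f * x = Equiv.mulLeft₀ _ hc' := by
        ext t
        simp only [Perm.mul_apply, hxi, h, hx, Equiv.mulLeft₀_apply, mul_pow, hJ, hpp]
      rw [this]; exact sc_mem hq _ _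
    · have : x⁻¹ * f * x = Equiv.mulLeft₀ _ hc' * (frobeniusEquiv K p).toEquiv := by
        ext t
        simp only [Perm.mul_apply, hxi, h, hx, Equiv.mulLeft₀_apply, mul_pow]
        rw [pow_right_comm (t ^ J) p J, hJ, hpp]
        rfl
      rw [this, map_mul]
      exact Subgroup.mul_mem _ (sc_mem hq _ _) (frob_mem hq _ fun _ => rfl)
  have hcomm : ext x * iv = iv * ext x := by
    ext1 t
    rcases t with _ | t
    · simp [x0]
    · by_cases ht : t = 0
      · simp [ht, x0]
      · simp only [Perm.mul_apply, iv_some ht, ext_some, hx, iv_some (pow_ne_zero J ht), inv_pow]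
  have hconj : ∀ y ∈ Y, (ext x)⁻¹ * y * ext x ∈ Y := by
    rintro y ⟨hy1, hy2⟩
    refine ⟨Subgroup.mul_mem _ (Subgroup.mul_mem _ (Subgroup.inv_mem _ hX) hy1) hX, ?_⟩
    rcases (hstab y).1 hy1 with ⟨h1, h2⟩ | ⟨h1, h2⟩
    · exact hconj0 y hy2 h1 h2
    · have := hconj0 (iv * y) (Subgroup.mul_mem _ (iv_mem hq) hy2) (by simp [h1]) (by simp [h2])
      have e : (ext x)⁻¹ * (iv * y) * ext x = iv * ((ext x)⁻¹ * y * ext x) := by
        rw [← mul_assoc, ← mul_assoc, ← mul_assoc, (show Commute (ext x) iv from hcomm).inv_left.eq]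
      rw [e] at this
      exact ((PG hq).mul_mem_cancel_left (iv_mem hq)).1 this
  have hform : ∀ y ∈ Y, ∃ (c : K) (e : ℤ), c ≠ 0 ∧ (∀ t : K, (t ^ e) ^ e = t) ∧
      ∀ t : K, t ≠ 0 → y (some t) = some (c * t ^ e) := by
    rintro y ⟨hy1, hy2⟩
    rcases (hstab y).1 hy1 with ⟨h1, h2⟩ | ⟨h1, h2⟩
    · obtain ⟨f, c, hc, rfl, h | h⟩ := stab_zero hq hy2 h1 h2
      · exact ⟨c, 1, hc, by simp, fun t _ => by simp [h]⟩
      · exact ⟨c, p, hc, by simp [hpp], fun t _ => by simp [h]⟩
    · obtain ⟨f, c, hc, e, h⟩ := stab_zero hq (Subgroup.mul_mem _ (iv_mem hq) hy2)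
        (by simp [h1]) (by simp [h2])
      have hy : ∀ t, y (some t) = iv (some (f t)) := by
        intro t
        rw [← ext_some, e, Perm.mul_apply, iv_iv]
      rcases h with h | h
      · refine ⟨c⁻¹, -1, inv_ne_zero hc, by simp, fun t ht => ?_⟩
        rw [hy, h, iv_some (mul_ne_zero hc ht)]; simp [mul_comm]
      · refine ⟨c⁻¹, -(p : ℤ), inv_ne_zero hc, by simp [hpp], fun t ht => ?_⟩
        rw [hy, h, iv_some (mul_ne_zero hc (pow_ne_zero _ ht))]; simp [mul_comm]
  have hno : ∀ y ∈ Y, (ext x * y) * (ext x * y) ≠ 1 := by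
    intro y hy h
    obtain ⟨c, e, hc, he, hf⟩ := hform y hy
    have key : ∀ t : K, t ≠ 0 → c ^ J * (c ^ e) ^ p * t ^ p = t := by
      intro t ht
      have := congrArg (fun σ : Perm (Option K) => σ (some t)) h
      simp only [Perm.mul_apply, hf t ht, ext_some, hx, Perm.one_apply] at this
      rw [hf _ (pow_ne_zero _ (mul_ne_zero hc (zpow_ne_zero _ ht))), ext_some, hx,
        Option.some.injEq] at this
      have e2 : ((c * t ^ e) ^ J) ^ e = (c ^ e * t) ^ J := by
        rw [← zpow_natCast, ← zpow_mul, mul_comm (J : ℤ), zpow_mul, mul_zpow, he, zpow_natCast]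
      rw [e2, mul_pow, hJ, mul_pow, ← mul_assoc] at this
      exact this
    have k1 := key 1 one_ne_zero
    rw [one_pow, mul_one] at k1
    obtain ⟨t, ht⟩ := exists_not_fixed (K := K) hq
    by_cases ht0 : t = 0
    · simp [ht0, hp.ne_zero] at ht
    · have := key t ht0
      rw [k1, one_mul] at this
      exact ht this
  have hxA : ext x ∉ PG hq := by
    intro h
    exact hno _ (Y.inv_mem ⟨hX, h⟩) (by simp)
  have hxx : ext x * ext x ∈ Y := by
    refine ⟨Subgroup.mul_mem _ hX hX, ?_⟩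
    rw [← map_mul]
    exact frob_mem hq _ fun t => hJ t
  obtain ⟨y, hy, e⟩ := exists_involution (PG hq) Y inf_le_right (odd_relIndex hq hp2) (ext x) hxA
    hconj hxx S hS huniq
  exact hno y hy e

theorem PG_coatom (hq : Fintype.card K = p ^ 2) (hp2 : p ≠ 2) (hl : (p ^ 2 - 2).Prime) :
    IsCoatom (PG hq) := by
  constructor
  · intro h
    classical
    obtain ⟨t, ht⟩ := exists_not_fixed (K := K) hq
    have hp : p.Prime := Fact.out
    have t0 : t ≠ 0 := by rintro rfl; simp [hp.ne_zero] at ht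
    have t1 : t ≠ 1 := by rintro rfl; simp at ht
    have : Fact (2 < p) := ⟨by have := hp.two_le; omega⟩
    have m1 : (-1 : K) ≠ 1 := CharP.neg_one_ne_one K p
    rcases PG_fix hq (f := swap (-1) t) (h ▸ Subgroup.mem_top _)
      (swap_apply_of_ne_of_ne (by simp) t0.symm) (swap_apply_of_ne_of_ne m1.symm t1.symm)
      with e | e
    · have := e (-1)
      rw [swap_apply_left] at this
      rw [this, neg_one_pow_char] at ht
      exact ht rfl
    · have := e (-1)
      rw [swap_apply_left, neg_one_pow_char] at this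
      rw [this, neg_one_pow_char] at ht
      exact ht rfl
  · intro H hH
    rcases PG_maximal hq hp2 hl H hH.le with h | h
    · exact absurd h (not_le_of_gt hH)
    · exact h

theorem exists_example : ∃ A : Subgroup (Perm (Fin 97970)), IsCoatom A ∧
    ∀ S : Set (Perm (Fin 97970)), (∀ s ∈ S, s⁻¹ ∈ S) →
      ¬ ∀ g, g ∉ A → ∃! s, s ∈ S ∧ s * g ∈ A := by
  classical
  have : Fact (Nat.Prime 313) := ⟨by norm_num⟩
  let F := GaloisField 313 2
  have : Fintype F := Fintype.ofFinite F
  have hq : Fintype.card F = 313 ^ 2 := by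
    rw [← Nat.card_eq_fintype_card]; exact GaloisField.card 313 2 (by norm_num)
  have hJ : ∀ t : F, (t ^ 443) ^ 443 = t ^ 313 := by
    intro t
    have h := FiniteField.pow_card t
    rw [hq] at h
    rw [← pow_mul]
    calc t ^ (443 * 443) = t ^ 313 ^ 2 * t ^ 313 ^ 2 * t ^ 311 := by
          rw [← pow_add, ← pow_add]; norm_num
      _ = t ^ 313 := by rw [h, ← pow_two, ← pow_add]
  let e : Option F ≃ Fin 97970 := Fintype.equivFinOfCardEq (by rw [Fintype.card_option, hq]; norm_num)
  let φ : Perm (Option F) ≃* Perm (Fin 97970) := e.permCongrHom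
  refine ⟨(PG hq).map φ.toMonoidHom, ?_, ?_⟩
  · exact ((φ.mapSubgroup).isCoatom_iff _).2 (PG_coatom hq (by norm_num) (by norm_num))
  · intro S hS h
    have hm : ∀ g, φ g ∈ (PG hq).map φ.toMonoidHom ↔ g ∈ PG hq := fun g =>
      Subgroup.mem_map_iff_mem (f := φ.toMonoidHom) φ.injective
    apply PG_not_code hq (by norm_num) 443 hJ (φ ⁻¹' S)
    · intro s hs
      simpa using hS _ hs
    · intro g hg
      obtain ⟨s, ⟨s1, s2⟩, su⟩ := h (φ g) (by rwa [hm])
      refine ⟨φ.symm s, ⟨by simpa using s1, ?_⟩, ?_⟩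
      · rw [← hm]; simpa using s2
      · rintro s' ⟨a1, a2⟩
        rw [← su (φ s') ⟨a1, by rw [← map_mul, hm]; exact a2⟩]; simp

end Pool.Agent.Lib.MP_51f8fd_al
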