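import Pool.Agent.Lib.MP_51f8fd_al.FieldBasic

namespace Pool.Agent.Lib.MP_51f8fd_al

open Equiv

variable {K : Type*} [Field K]

/-- determinant of homogeneous coordinates on the projective line -/
def dl : Option K → Option K → K
  | none, none => 0
  | none, some _ => 1
  | some _, none => -1
  | some a, some b => a - b

/-- extension of permutations of `K` to the projective line -/
def ext : Perm K →* Perm (Option K) where
  toFun f := f.optionCongr
  map_one' := Equiv.optionCongr_refl
  map_mul' f g := by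
    ext1 x; cases x <;> simp

omit [Field K] in
@[simp] theorem ext_none (f : Perm K) : ext f none = none := rfl
omit [Field K] in
@[simp] theorem ext_some (f : Perm K) (t : K) : ext f (some t) = some (f t) := rfl

omit [Field K] in
theorem exists_ext (h : Perm (Option K)) (h0 : h none = none) : ∃ f, ext f = h := by
  classical
  refine ⟨removeNone h, ?_⟩
  have := map_equiv_removeNone h
  rw [h0, swap_self] at this
  exact this

open Classical in
/-- inversion on the projective line -/
noncomputable def iv : Perm (Option K) := swap none (some 0) * ext (Equiv.inv K)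

@[simp] theorem iv_none : (iv : Perm (Option K)) none = some 0 := by simp [iv]
@[simp] theorem iv_zero : (iv : Perm (Option K)) (some 0) = none := by simp [iv]
theorem iv_some {t : K} (ht : t ≠ 0) : (iv : Perm (Option K)) (some t) = some t⁻¹ := by
  classical
  simp only [iv, Perm.mul_apply, ext_some, Equiv.inv_apply]
  rw [swap_apply_of_ne_of_ne] <;> simp [ht]

theorem iv_iv (x : Option K) : (iv : Perm (Option K)) (iv x) = x := by
  rcases x with _ | t
  · simp
  · by_cases ht : t = 0
    · simp [ht]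
    · rw [iv_some ht, iv_some (inv_ne_zero ht), inv_inv]

variable [Fintype K] {p : ℕ}

theorem pow_pow_cases (hq : Fintype.card K = p ^ 2) (i : ℕ) :
    (∀ t : K, t ^ p ^ i = t) ∨ (∀ t : K, t ^ p ^ i = t ^ p) := by
  have hpp : ∀ t : K, (t ^ p) ^ p = t := fun t => by
    rw [← pow_mul, ← pow_two, ← hq, FiniteField.pow_card]
  induction i with
  | zero => left; simp
  | succ i ih =>
    rcases ih with h | h
    · right; intro t; rw [pow_succ, pow_mul, h]
    · left; intro t; rw [pow_succ, pow_mul, h, hpp]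

theorem pow_pow_pow (hq : Fintype.card K = p ^ 2) (i : ℕ) (t : K) : (t ^ p ^ i) ^ p ^ i = t := by
  rcases pow_pow_cases hq i with h | h
  · rw [h, h]
  · rw [h, h, ← pow_mul, ← pow_two, ← hq, FiniteField.pow_card]

/-- the group of semilinear fractional transformations -/
def PG (hq : Fintype.card K = p ^ 2) : Subgroup (Perm (Option K)) where
  carrier := {σ | ∃ (i : ℕ) (κ : K) (l : Option K → K), κ ≠ 0 ∧ (∀ a, l a ≠ 0) ∧
    ∀ a b, dl (σ a) (σ b) = κ * l a * l b * dl a b ^ p ^ i}
  mul_mem' := by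
    rintro σ τ ⟨i, κ, l, h1, h2, h3⟩ ⟨j, κ', l', h1', h2', h3'⟩
    refine ⟨j + i, κ * κ' ^ p ^ i, fun a => l (τ a) * l' a ^ p ^ i,
      mul_ne_zero h1 (pow_ne_zero _ h1'), fun a => mul_ne_zero (h2 _) (pow_ne_zero _ (h2' _)),
      fun a b => ?_⟩
    rw [Perm.mul_apply, Perm.mul_apply, h3, h3', pow_add, pow_mul]
    simp only [mul_pow]; ring
  one_mem' := ⟨0, 1, fun _ => 1, one_ne_zero, fun _ => one_ne_zero, fun a b => by simp⟩
  inv_mem' := by
    rintro σ ⟨i, κ, l, h1, h2, h3⟩
    refine ⟨i, (κ ^ p ^ i)⁻¹, fun a => (l (σ⁻¹ a) ^ p ^ i)⁻¹, inv_ne_zero (pow_ne_zero _ h1),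
      fun a => inv_ne_zero (pow_ne_zero _ (h2 _)), fun a b => ?_⟩
    have := h3 (σ⁻¹ a) (σ⁻¹ b)
    simp only [Perm.coe_inv, apply_symm_apply] at this ⊢
    rw [this]
    simp only [mul_pow, pow_pow_pow hq]
    have a1 := pow_ne_zero (p ^ i) h1
    have a2 := pow_ne_zero (p ^ i) (h2 (σ.symm a))
    have a3 := pow_ne_zero (p ^ i) (h2 (σ.symm b))
    field_simp

theorem tr_mem (hq : Fintype.card K = p ^ 2) (c : K) : ext (Equiv.addRight c) ∈ PG hq := by
  refine ⟨0, 1, fun _ => 1, one_ne_zero, fun _ => one_ne_zero, fun a b => ?_⟩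
  cases a <;> cases b <;> simp [dl]

theorem sc_mem (hq : Fintype.card K = p ^ 2) (c : K) (hc : c ≠ 0) :
    ext (Equiv.mulLeft₀ c hc) ∈ PG hq := by
  refine ⟨0, c, fun a => a.elim c⁻¹ fun _ => 1, hc, fun a => ?_, fun a b => ?_⟩
  · cases a <;> simp [hc]
  · cases a <;> cases b <;> simp [dl, hc, mul_sub]

theorem iv_mem (hq : Fintype.card K = p ^ 2) : (iv : Perm (Option K)) ∈ PG hq := by
  classical
  refine ⟨0, -1, fun a => a.elim 1 fun t => if t = 0 then 1 else t⁻¹, by simp, fun a => ?_,
    fun a b => ?_⟩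
  · rcases a with _ | t
    · simp
    · by_cases ht : t = 0 <;> simp [ht]
  · rcases a with _ | s <;> rcases b with _ | t
    · simp [dl]
    · by_cases ht : t = 0
      · simp [dl, ht]
      · simp [dl, ht, iv_some ht]
    · by_cases hs : s = 0
      · simp [dl, hs]
      · simp [dl, hs, iv_some hs]
    · by_cases hs : s = 0 <;> by_cases ht : t = 0
      · simp [dl, hs, ht]
      · simp [dl, hs, ht, iv_some ht]
      · simp [dl, hs, ht, iv_some hs]
      · simp only [dl, hs, ht, iv_some hs, iv_some ht, Option.elim, if_false, pow_zero, pow_one]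
        field_simp; ring

theorem frob_mem [Fact p.Prime] [CharP K p] (hq : Fintype.card K = p ^ 2) (f : Perm K)
    (hf : ∀ t, f t = t ^ p) : ext f ∈ PG hq := by
  have hp0 : p ≠ 0 := (Fact.out : p.Prime).ne_zero
  refine ⟨1, 1, fun _ => 1, one_ne_zero, fun _ => one_ne_zero, fun a b => ?_⟩
  cases a <;> cases b <;> simp [dl, hf, hp0, neg_one_pow_char, sub_pow_char]

theorem PG_fix (hq : Fintype.card K = p ^ 2) {f : Perm K} (hf : ext f ∈ PG hq)
    (f0 : f 0 = 0) (f1 : f 1 = 1) : (∀ t, f t = t) ∨ (∀ t, f t = t ^ p) := by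
  obtain ⟨i, κ, l, h1, h2, h3⟩ := hf
  have e1 : ∀ t, l (some t) = l (some 0) := by
    intro t
    have a := h3 none (some t)
    have b := h3 none (some 0)
    simp only [ext_none, ext_some, dl, one_pow, mul_one] at a b
    exact mul_left_cancel₀ (mul_ne_zero h1 (h2 none)) (a.symm.trans b)
  have e2 : ∀ t, f t = κ * l (some 0) * l (some 0) * t ^ p ^ i := by
    intro t
    have a := h3 (some t) (some 0)
    simpa only [ext_some, dl, f0, sub_zero, e1 t] using a
  have e3 := e2 1
  rw [f1, one_pow, mul_one] at e3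
  simp only [e2, ← e3, one_mul]
  exact pow_pow_cases hq i

theorem PG_trans (hq : Fintype.card K = p ^ 2) (x y z : Option K) (hxy : x ≠ y) (hxz : x ≠ z)
    (hyz : y ≠ z) : ∃ a ∈ PG hq, a x = none ∧ a y = some 0 ∧ a z = some 1 := by
  obtain ⟨a, ha, ax⟩ : ∃ a ∈ PG hq, a x = none := by
    rcases x with _ | t
    · exact ⟨1, Subgroup.one_mem _, rfl⟩
    · exact ⟨iv * ext (Equiv.addRight (-t)), Subgroup.mul_mem _ (iv_mem hq) (tr_mem hq _), by simp⟩
  obtain ⟨s, hs⟩ := Option.ne_none_iff_exists'.1 (show a y ≠ none by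
    rw [← ax]; exact a.injective.ne hxy.symm)
  obtain ⟨r, hr⟩ := Option.ne_none_iff_exists'.1 (show a z ≠ none by
    rw [← ax]; exact a.injective.ne hxz.symm)
  have hrs : r - s ≠ 0 := by
    rw [sub_ne_zero]
    rintro rfl
    exact hyz (a.injective (hs.trans hr.symm))
  refine ⟨ext (Equiv.mulLeft₀ _ (inv_ne_zero hrs)) * ext (Equiv.addRight (-s)) * a,
    Subgroup.mul_mem _ (Subgroup.mul_mem _ (sc_mem hq _ _) (tr_mem hq _)) ha, ?_, ?_, ?_⟩
  · simp [ax]
  · simp [hs]
  · simp [hr, ← sub_eq_add_neg, hrs]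

end Pool.Agent.Lib.MP_51f8fd_al
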