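import Pool.Agent.Lib.MP_51f8fd_al.Crit

set_option autoImplicit false

namespace Pool.Agent.Lib.MP_51f8fd_al

open Finset Equiv

/-- the permutations that permute the fibres of `blk` like an element of `K` -/
def Wr {Ω β : Type*} (blk : Ω → β) (K : Subgroup (Perm β)) : Subgroup (Perm Ω) where
  carrier := {g | ∃ k ∈ K, ∀ p, blk (g p) = k (blk p)}
  one_mem' := ⟨1, K.one_mem, fun _ => rfl⟩
  mul_mem' := by
    rintro g h ⟨k, hk, e⟩ ⟨l, hl, f⟩
    exact ⟨k * l, K.mul_mem hk hl, fun p => by rw [Perm.mul_apply, e, f, Perm.mul_apply]⟩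
  inv_mem' := by
    rintro g ⟨k, hk, e⟩
    exact ⟨k⁻¹, K.inv_mem hk, fun p => by
      rw [Perm.eq_inv_iff_eq, ← e]; simp⟩

variable {α β : Type*}

lemma mem_Wr {Ω : Type*} {blk : Ω → β} {K : Subgroup (Perm β)} {g : Perm Ω} :
    g ∈ Wr blk K ↔ ∃ k ∈ K, ∀ p, blk (g p) = k (blk p) := Iff.rfl

/-- the permutation acting on the first coordinate by `σ u` -/
def lf (σ : α → Perm β) : Perm (β × α) := Equiv.prodCongrLeft σ

@[simp] lemma lf_apply (σ : α → Perm β) (b : β) (u : α) : lf σ (b, u) = (σ u b, u) := rfl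

lemma lf_inv (σ : α → Perm β) (p : β × α) : (lf σ)⁻¹ p = ((σ p.2)⁻¹ p.1, p.2) := rfl

lemma odd_Wr [Nonempty α] {Y K : Subgroup (Perm β)} (ho : Odd (Y.relIndex K)) :
    Odd ((Wr (Prod.fst : β × α → β) Y).relIndex (Wr Prod.fst K)) := by
  obtain ⟨u⟩ := ‹Nonempty α›
  have uq : ∀ (g : Perm (β × α)) (k l : Perm β), (∀ p, (g p).1 = k p.1) → (∀ p, (g p).1 = l p.1) →
      k = l := fun g k l h1 h2 => Equiv.ext (fun b => (h1 (b, u)).symm.trans (h2 (b, u)))
  choose f f0 hf using fun g : Wr (Prod.fst : β × α → β) ⊤ => mem_Wr.1 g.2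
  let φ : Wr (Prod.fst : β × α → β) ⊤ →* Perm β := MonoidHom.mk' f (fun g h =>
    uq _ _ _ (hf (g * h)) (fun p => by rw [Perm.mul_apply, ← hf, ← hf]; rfl))
  have sj : Function.Surjective φ := fun k =>
    ⟨⟨lf (fun _ => k), k, trivial, fun _ => rfl⟩, uq _ _ _ (hf _) (fun _ => rfl)⟩
  have e : ∀ L : Subgroup (Perm β), (Wr Prod.fst L).subgroupOf (Wr (Prod.fst : β × α → β) ⊤)
      = L.comap φ := fun L => by
    ext g
    rw [Subgroup.mem_subgroupOf, Subgroup.mem_comap]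
    exact ⟨fun ⟨k, hk, h⟩ => show f g ∈ L from uq _ _ _ h (hf g) ▸ hk, fun h => ⟨_, h, hf g⟩⟩
  have le : Wr (Prod.fst : β × α → β) K ≤ Wr Prod.fst ⊤ := fun g ⟨k, _, h⟩ => ⟨k, trivial, h⟩
  rw [← Subgroup.relIndex_subgroupOf le, e, e, Subgroup.relIndex_comap,
    Subgroup.map_comap_eq_self_of_surjective sj]
  exact ho

theorem code_of_Wr [Finite β] [Nonempty α] {K : Subgroup (Perm β)}
    (h : Code (Wr (Prod.fst : β × α → β) K)) : Code K := by
  obtain ⟨u⟩ := id ‹Nonempty α›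
  refine code_of_crit K (fun x hx ho => ?_)
  obtain ⟨y, ⟨k, hk, e⟩, hy⟩ := h.invol (Y := Wr Prod.fst (fx K x))
    (fun g ⟨k, hk, e⟩ => ⟨k, (mem_fx.1 hk).1, e⟩) (odd_Wr ho) (lf (fun _ => x))
    (fun g ⟨k, hk, e⟩ => ⟨x⁻¹ * k * x, mem_fx.2 ⟨(mem_fx.1 hk).2, by
      have := K.mul_mem (K.mul_mem (K.inv_mem hx) (mem_fx.1 hk).1) hx
      simpa [mul_assoc] using this⟩, fun p => by
      rw [Perm.mul_apply, Perm.mul_apply, lf_inv, e]; rfl⟩)
    ⟨x * x, mem_fx.2 ⟨hx, by simpa [mul_assoc] using hx⟩, fun _ => rfl⟩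
  refine ⟨k, (mem_fx.1 hk).1, Equiv.ext (fun b => ?_)⟩
  have e1 : ∀ p : β × α, ((lf (fun _ => x) * y : Perm (β × α)) p).1 = (x * k) p.1 := fun p => by
    rw [Perm.mul_apply, Perm.mul_apply, ← e]; rfl
  have := congrArg (fun g : Perm (β × α) => (g (b, u)).1) hy
  simp only [Perm.mul_apply _ (lf _ * y), e1] at this
  exact this

variable [Fintype α] [DecidableEq α]

lemma card_sat {d : α → ℕ} (hd : ∀ u, #{v | d v = d u} = 2 ^ d u) (U : Finset α)
    (hU : ∀ u v, d u = d v → u ∈ U → v ∈ U) : #U = ∑ i ∈ U.image d, 2 ^ i := by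
  rw [card_eq_sum_card_image d]
  refine sum_congr rfl (fun i hi => ?_)
  obtain ⟨u, hu, rfl⟩ := mem_image.1 hi
  rw [← hd u]
  congr 1
  ext v
  simp only [mem_filter, mem_univ, true_and]
  exact ⟨fun h => h.2, fun h => ⟨hU u v h.symm hu, h⟩⟩

lemma sat_eq {d : α → ℕ} (hd : ∀ u, #{v | d v = d u} = 2 ^ d u) {U V : Finset α}
    (hU : ∀ u v, d u = d v → u ∈ U → v ∈ U) (hV : ∀ u v, d u = d v → u ∈ V → v ∈ V)
    (h : #U = #V) : U ⊆ V := by
  rw [card_sat hd U hU, card_sat hd V hV] at h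
  have e := geomSum_injective le_rfl h
  intro u hu
  obtain ⟨v, hv, e'⟩ := mem_image.1 (e ▸ mem_image_of_mem d hu)
  exact hV v u e' hv

variable [Fintype β] [DecidableEq β]

lemma slice_bij {d : α → ℕ} (hd : ∀ u, #{v | d v = d u} = 2 ^ d u) (κ : β × α → β)
    (h1 : ∀ b, #{p | κ p = b} = Fintype.card α) (h2 : ∀ b u v, d u = d v → κ (b, u) = κ (b, v))
    (u : α) : Function.Bijective (fun b => κ (b, u)) := by
  suffices h : ∀ n u, univ.sup d - d u = n → Function.Bijective (fun b => κ (b, u)) from h _ u rfl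
  intro n
  induction n using Nat.strong_induction_on with
  | _ n ih =>
  intro u hn
  refine Finite.injective_iff_bijective.1 (fun b1 b2 e => ?_)
  by_contra hne
  have s1 : #{p | κ p = κ (b1, u)} = ∑ v, #{b | κ (b, v) = κ (b1, u)} := by
    simp only [card_filter]
    rw [Fintype.sum_prod_type_right]
  have s2 : ∑ v, ((if d u < d v then 1 else 0) + (if d v = d u then 2 else 0))
      ≤ ∑ v, #{b | κ (b, v) = κ (b1, u)} := sum_le_sum (fun v _ => by
    split_ifs with a1 a2 a2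
    · omega
    · have : d v ≤ univ.sup d := le_sup (mem_univ v)
      obtain ⟨b, hb⟩ := (ih _ (by omega) v rfl).2 (κ (b1, u))
      exact card_pos.2 ⟨b, mem_filter.2 ⟨mem_univ _, hb⟩⟩
    · exact one_lt_card.2 ⟨b1, mem_filter.2 ⟨mem_univ _, h2 _ _ _ a2⟩, b2,
        mem_filter.2 ⟨mem_univ _, (h2 _ _ _ a2).trans e.symm⟩, hne⟩
    · exact Nat.zero_le _)
  rw [sum_add_distrib, ← card_filter, ← sum_filter, sum_const, hd, ← s1, h1, smul_eq_mul] at s2
  have s3 := card_filter_add_card_filter_not (s := univ) (fun v => d u < d v)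
  have s4 := card_sat hd {v | ¬ d u < d v} (fun v w e h => by
    simp only [mem_filter, mem_univ, true_and] at h ⊢; omega)
  have s5 := Nat.geomSum_lt (m := 2) (s := ({v | ¬ d u < d v} : Finset α).image d) (n := d u + 1)
    le_rfl (fun k hk => by
      obtain ⟨v, hv, rfl⟩ := mem_image.1 hk
      simp only [mem_filter, mem_univ, true_and] at hv; omega)
  rw [card_univ] at s3
  omega

omit [DecidableEq α] in
lemma exists_digits : ∃ (d : α → ℕ) (c : Perm α) (m : ℕ), c ^ 2 ^ m = 1 ∧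
    (∀ u, #{v | d v = d u} = 2 ^ d u) ∧ ∀ u v, d u = d v → ∃ n : ℕ, (c ^ n) u = v := by
  classical
  obtain ⟨I, hI⟩ : ∃ I : Finset ℕ, ∑ i ∈ I, 2 ^ i = Fintype.card α :=
    ⟨_, sum_toFinset_bitIndices_two_pow _⟩
  let e : (Σ i : I, ZMod (2 ^ (i : ℕ))) ≃ α := Fintype.equivOfCardEq (by
    rw [Fintype.card_sigma, ← hI, ← sum_coe_sort I]
    exact sum_congr rfl (fun i _ => ZMod.card _))
  let c : Perm (Σ i : I, ZMod (2 ^ (i : ℕ))) := Equiv.sigmaCongrRight (fun _ => Equiv.addRight 1)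
  have hc : ∀ (n : ℕ) (i : I) (z : ZMod (2 ^ (i : ℕ))), (c ^ n) ⟨i, z⟩ = ⟨i, z + n⟩ := by
    intro n i z
    induction n with
    | zero => simp
    | succ n ih => rw [pow_succ', Perm.mul_apply, ih, Nat.cast_succ, ← add_assoc]; rfl
  refine ⟨fun u => (e.symm u).1, e.permCongrHom c, I.sup id, ?_, fun u => ?_, fun u v h => ?_⟩
  · rw [← map_pow, ← map_one e.permCongrHom]
    congr 1
    refine Equiv.ext (fun ⟨i, z⟩ => ?_)
    rw [hc, (ZMod.natCast_eq_zero_iff _ _).2 (pow_dvd_pow 2 (le_sup (f := id) i.2)), add_zero]; rfl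
  · rw [← ZMod.card (2 ^ ((e.symm u).1 : ℕ)), ← card_univ]
    symm
    refine card_bij (fun z _ => e ⟨_, z⟩) (fun z _ => by simp) (fun z _ z' _ h => by simpa using h)
      (fun v hv => ?_)
    obtain ⟨⟨j, z⟩, rfl⟩ := e.surjective v
    simp only [mem_filter, mem_univ, true_and, symm_apply_apply] at hv
    obtain rfl : j = (e.symm u).1 := Subtype.ext hv
    exact ⟨z, mem_univ _, rfl⟩
  · obtain ⟨⟨j, z⟩, rfl⟩ := e.surjective v
    obtain ⟨⟨i, y⟩, rfl⟩ := e.surjective u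
    simp only [symm_apply_apply] at h
    obtain rfl : i = j := Subtype.ext h
    refine ⟨(z - y).val, ?_⟩
    rw [← map_pow]
    show e ((c ^ _) (e.symm (e _))) = _
    rw [symm_apply_apply, hc, ZMod.natCast_zmod_val, add_sub_cancel]

/-- the 2-subgroup used in the proof -/
def Rg (T : Subgroup (Perm β)) (c : Perm α) : Subgroup (Perm (β × α)) where
  carrier := {g | ∃ t ∈ T, ∃ f : β → ℤ, ∀ b u, g (b, u) = (t b, (c ^ f b) u)}
  one_mem' := ⟨1, T.one_mem, 0, fun _ _ => rfl⟩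
  mul_mem' := by
    rintro g h ⟨t, ht, f, e⟩ ⟨s, hs, f', e'⟩
    exact ⟨t * s, T.mul_mem ht hs, fun b => f (s b) + f' b, fun b u => by
      rw [Perm.mul_apply, e', e, zpow_add]; rfl⟩
  inv_mem' := by
    rintro g ⟨t, ht, f, e⟩
    exact ⟨t⁻¹, T.inv_mem ht, fun b => -f (t⁻¹ b), fun b u => by
      rw [Perm.inv_eq_iff_eq, e, zpow_neg]; simp⟩

omit [Fintype α] [DecidableEq α] [Fintype β] [DecidableEq β] in
lemma Rg_two {T : Subgroup (Perm β)} (hT : IsPGroup 2 T) {c : Perm α} {m : ℕ}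
    (hc : c ^ 2 ^ m = 1) : IsPGroup 2 (Rg T c) := by
  rintro ⟨g, t, ht, f, e⟩
  obtain ⟨n, hn⟩ := hT ⟨t, ht⟩
  have hn' : t ^ 2 ^ n = 1 := congrArg Subtype.val hn
  have k1 : ∀ j : ℕ, ∃ F : β → ℤ, ∀ b u, (g ^ j) (b, u) = ((t ^ j) b, (c ^ F b) u) := fun j => by
    induction j with
    | zero => exact ⟨0, fun _ _ => rfl⟩
    | succ j ih =>
      obtain ⟨F, hF⟩ := ih
      exact ⟨fun b => f ((t ^ j) b) + F b, fun b u => by
        rw [pow_succ', Perm.mul_apply, hF, e, zpow_add, pow_succ']; rfl⟩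
  obtain ⟨F, hF⟩ := k1 (2 ^ n)
  rw [hn'] at hF
  have k2 : ∀ (j : ℕ) b u, ((g ^ 2 ^ n) ^ j) (b, u) = (b, ((c ^ F b) ^ j) u) := fun j b u => by
    induction j with
    | zero => rfl
    | succ j ih => rw [pow_succ', Perm.mul_apply, ih, hF, pow_succ']; rfl
  refine ⟨n + m, Subtype.ext (Equiv.ext (fun ⟨b, u⟩ => ?_))⟩
  show (g ^ 2 ^ (n + m)) (b, u) = (b, u)
  rw [pow_add, pow_mul, k2, ← zpow_natCast, ← zpow_mul, mul_comm, zpow_mul, zpow_natCast, hc,
    one_zpow]; rfl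

omit [DecidableEq α] in
lemma card_fibre (x : Perm (β × α)) (b : β) : #{p | (x p).1 = b} = Fintype.card α := by
  classical
  rw [← card_univ]
  exact card_bij (fun p _ => (x p).2) (fun _ _ => mem_univ _) (fun p hp q hq e =>
    x.injective (Prod.ext ((mem_filter.1 hp).2.trans (mem_filter.1 hq).2.symm) e))
    (fun u _ => ⟨x⁻¹ (b, u), mem_filter.2 ⟨mem_univ _, by simp⟩, by simp⟩)

theorem Wr_code [Nonempty α] {K : Subgroup (Perm β)} (h : Code K) :
    Code (Wr (Prod.fst : β × α → β) K) := by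
  have : Fact (Nat.Prime 2) := ⟨Nat.prime_two⟩
  obtain ⟨u0⟩ := id ‹Nonempty α›
  obtain ⟨d, c, m, hc, hd, hn⟩ := exists_digits (α := α)
  obtain ⟨P⟩ : Nonempty (Sylow 2 K) := inferInstance
  refine code_of_two_subgroup _ (Rg (P.1.map K.subtype) c) (fun g ⟨t, ⟨s, _, hs⟩, f, e⟩ =>
    ⟨t, hs ▸ s.2, fun ⟨b, u⟩ => by rw [e]⟩) (Rg_two (P.isPGroup'.map _) hc) (fun x hx hR => ?_)
  have mv : ∀ r ∈ Rg (P.1.map K.subtype) c, ∃ k ∈ K, ∀ p, (x⁻¹ (r p)).1 = k (x⁻¹ p).1 :=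
    fun r hr => by
    obtain ⟨k, hk, e⟩ := hR r hr
    exact ⟨k, hk, fun p => by simpa using e (x⁻¹ p)⟩
  have step : ∀ b u, (x⁻¹ (b, c u)).1 = (x⁻¹ (b, u)).1 := fun b u => by
    obtain ⟨k, -, e⟩ := mv (Equiv.prodCongrRight (fun b' => c ^ (if b' = b then 1 else 0 : ℤ)))
      ⟨1, Subgroup.one_mem _, fun b' => if b' = b then 1 else 0, fun _ _ => rfl⟩
    by_cases hp : ∃ p : β × α, p.1 ≠ b ∧ (x⁻¹ p).1 = (x⁻¹ (b, u)).1
    · obtain ⟨⟨b', v⟩, h1, h2⟩ := hp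
      have e1 := e (b', v)
      have e2 := e (b, u)
      rw [prodCongrRight_apply, if_neg h1, zpow_zero, Perm.one_apply, h2] at e1
      rw [prodCongrRight_apply, if_pos rfl, zpow_one] at e2
      exact e2.trans e1.symm
    · have e1 : univ.filter (fun p => (x⁻¹ p).1 = (x⁻¹ (b, u)).1)
          = univ.filter (fun p => ((1 : Perm (β × α)) p).1 = b) := eq_of_subset_of_card_le
        (fun p h1 => mem_filter.2 ⟨mem_univ _,
          by_contra (fun h2 => hp ⟨p, h2, (mem_filter.1 h1).2⟩)⟩) (by rw [card_fibre, card_fibre])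
      have e2 : (b, c u) ∈ univ.filter (fun p => ((1 : Perm (β × α)) p).1 = b) :=
        mem_filter.2 ⟨mem_univ _, rfl⟩
      rw [← e1] at e2
      exact (mem_filter.1 e2).2
  have sat : ∀ b u v, d u = d v → (x⁻¹ (b, u)).1 = (x⁻¹ (b, v)).1 := fun b u v e => by
    obtain ⟨n, rfl⟩ := hn u v e
    clear e
    induction n with
    | zero => rfl
    | succ n ih => rw [pow_succ', Perm.mul_apply, step, ih]
  obtain ⟨π, hπ⟩ : ∃ π : α → Perm β, ∀ u b, π u b = (x⁻¹ (b, u)).1 :=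
    ⟨fun u => Equiv.ofBijective _ (slice_bij hd (fun p => (x⁻¹ p).1) (card_fibre x⁻¹) sat u),
      fun _ _ => rfl⟩
  obtain ⟨k0, hk0, e0⟩ := Subgroup.inv_mem _ hx
  have sq : ∀ u, π u * π u = k0 := fun u => Equiv.ext (fun b => by
    have c1 : #{v | π v b = π u b} = #{v | π v (π u b) = k0 b} :=
      card_bij (fun v _ => (x⁻¹ (b, v)).2) (fun v hv => mem_filter.2 ⟨mem_univ _, by
          rw [← (mem_filter.1 hv).2, hπ, hπ, ← e0 (b, v)]; rfl⟩)
        (fun v hv w hw e => congrArg Prod.snd (x⁻¹.injective (Prod.ext (by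
          rw [← hπ, ← hπ, (mem_filter.1 hv).2, (mem_filter.1 hw).2]) e)))
        (fun v hv => by
          have e1 : (x (π u b, v)).1 = b := k0.injective (by
            rw [← e0, ← (mem_filter.1 hv).2, hπ v]; simp)
          have e2 : x⁻¹ (b, (x (π u b, v)).2) = (π u b, v) := by
            nth_rewrite 1 [← e1]; simp
          exact ⟨(x (π u b, v)).2, mem_filter.2 ⟨mem_univ _, by rw [hπ, e2]⟩, by rw [e2]⟩)
    exact (mem_filter.1 (sat_eq hd
      (fun v w e hv => mem_filter.2 ⟨mem_univ _, by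
        rw [← (mem_filter.1 hv).2, hπ w, hπ v, sat _ _ _ e]⟩)
      (fun v w e hv => mem_filter.2 ⟨mem_univ _, by
        rw [← (mem_filter.1 hv).2, hπ w, hπ v, sat _ _ _ e]⟩) c1 (mem_filter.2 ⟨mem_univ u, rfl⟩))).2)
  let D : Subgroup (Perm β) :=
    { carrier := {t | t ∈ K ∧ ∃ k ∈ K, ∀ u, π u * t * (π u)⁻¹ = k}
      one_mem' := ⟨K.one_mem, 1, K.one_mem, fun u => by simp⟩
      mul_mem' := by
        rintro s t ⟨h1, k, hk, e⟩ ⟨h2, l, hl, f⟩
        exact ⟨K.mul_mem h1 h2, k * l, K.mul_mem hk hl, fun u => by rw [← e u, ← f u]; group⟩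
      inv_mem' := by
        rintro s ⟨h1, k, hk, e⟩
        exact ⟨K.inv_mem h1, k⁻¹, K.inv_mem hk, fun u => by rw [← e u]; group⟩ }
  have PD : P.1 ≤ D.subgroupOf K := fun s hs => by
    obtain ⟨k, hk, e⟩ := mv (lf (fun _ => (s : Perm β))) ⟨s, ⟨s, hs, rfl⟩, 0, fun _ _ => rfl⟩
    refine ⟨s.2, k, hk, fun u => mul_inv_eq_iff_eq_mul.2 (Equiv.ext (fun b => ?_))⟩
    rw [Perm.mul_apply, Perm.mul_apply, hπ, hπ]
    exact e (b, u)
  obtain ⟨t, ⟨ht, k, -, e⟩, h1⟩ := h.invol (Y := D) (fun t ht => ht.1)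
    (Odd.of_dvd_nat (Nat.odd_iff.2 (Nat.two_dvd_ne_zero.1 P.not_dvd_index))
      (Subgroup.index_dvd_of_le PD)) (π u0)⁻¹
    (fun y ⟨hy, k, hk, e⟩ => by
      rw [inv_inv, e]
      exact ⟨hk, k0 * y * k0⁻¹, K.mul_mem (K.mul_mem hk0 hy) (K.inv_mem hk0), fun u => by
        rw [← e u, ← sq u]; group⟩)
    (by
      rw [← mul_inv_rev, sq]
      exact ⟨K.inv_mem hk0, k0⁻¹, K.inv_mem hk0, fun u => by rw [← sq u]; group⟩)
  have h2 : ∀ u, (π u)⁻¹ * t * ((π u)⁻¹ * t) = k0⁻¹ * k * t := fun u => by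
    rw [← e u, ← sq u]; group
  refine ⟨x⁻¹ * lf (fun u => (π u)⁻¹ * t), ⟨t, ht, fun ⟨b, u⟩ => ?_⟩, ?_⟩
  · rw [Perm.mul_apply, lf_apply, ← hπ]; simp
  · rw [mul_inv_cancel_left]
    refine Equiv.ext (fun ⟨b, u⟩ => ?_)
    rw [Perm.mul_apply, lf_apply, lf_apply, ← Perm.mul_apply, h2, ← h2 u0, h1]; rfl

lemma Code.comap {G H : Type*} [Group G] [Group H] {A : Subgroup G} (h : Code A) (φ : H ≃* G) :
    Code (A.comap φ.toMonoidHom) := by
  obtain ⟨S, h1, h2, h3⟩ := h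
  refine ⟨φ ⁻¹' S, by simpa using h1, fun s hs => by simpa using h2 _ hs, fun g hg => ?_⟩
  obtain ⟨s, ⟨a1, a2⟩, a3⟩ := h3 (φ g) hg
  exact ⟨φ.symm s, ⟨by simpa using a1, by simpa using a2⟩, fun t ht => by
    rw [← a3 (φ t) ⟨ht.1, by simpa using ht.2⟩, MulEquiv.symm_apply_apply]⟩

theorem Wr_code_iff {Ω : Type*} [Fintype Ω] (blk : Ω → β) {a : ℕ} (ha : 0 < a)
    (h : ∀ b, #{p | blk p = b} = a) (K : Subgroup (Perm β)) : Code (Wr blk K) ↔ Code K := by
  classical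
  have : Nonempty (Fin a) := ⟨⟨0, ha⟩⟩
  let e : β × Fin a ≃ Ω := ((Equiv.sigmaEquivProd β (Fin a)).symm.trans (Equiv.sigmaCongrRight
    (fun b => (Fintype.equivFinOfCardEq ((Fintype.card_subtype _).trans (h b))).symm))).trans
    (Equiv.sigmaFiberEquiv blk)
  have he : ∀ p, blk (e p) = p.1 := fun p => Subtype.prop (p := fun q => blk q = p.1) _
  have e1 : (Wr blk K).comap e.permCongrHom.toMonoidHom = Wr Prod.fst K := by
    ext g
    refine exists_congr (fun k => and_congr_right (fun _ => ⟨fun h p => ?_, fun h p => ?_⟩))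
    · simpa [he] using h (e p)
    · obtain ⟨p, rfl⟩ := e.surjective p
      simpa [he] using h p
  have e2 : (Wr Prod.fst K).comap e.permCongrHom.symm.toMonoidHom = Wr blk K := by
    rw [← e1]
    ext g
    show e.permCongrHom (e.permCongrHom.symm g) ∈ Wr blk K ↔ _
    rw [MulEquiv.apply_symm_apply]
  exact ⟨fun h => code_of_Wr (e1 ▸ h.comap e.permCongrHom), fun h => e2 ▸ (Wr_code h).comap _⟩

end Pool.Agent.Lib.MP_51f8fd_al
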